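import Pool.Agent.Y46.Kc.Near2

set_option autoImplicit false

/-!
# Rotation invariant monotone families of sets of residues

Let `m = c l ^ N`, `c` a prime power and `l` an odd prime with `2 ^ c < 4 l`. The signed number of the
members of a rotation invariant, non-trivial, monotone family of subsets of `ZMod m` is not zero.
-/

namespace Pool.Agent.Helper243Ev

open Finset
open Pool.Agent.Y46.Kc (sft sft_pow sft_pow_self mem_fc fixed_one fc_pow sum_fixed)

open Classical in
/-- the signed number of the members of a monotone family is at most `2 ^ (card - 2)` -/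
theorem small {α : Type} [Fintype α] [DecidableEq α] (g : Finset α → Prop)
    (hg : ∀ I J, I ⊆ J → g I → g J) (x : α) (hx : ((univ : Finset α).erase x).Nonempty) :
    |2 * ∑ J : Finset α, (-1 : ℤ) ^ J.card * (if g J then 1 else 0)| ≤
      2 ^ ((univ : Finset α).erase x).card := by
  set s := (univ : Finset α).erase x with hs
  have hxs : x ∉ s := by simp [hs]
  have hun : (univ : Finset α) = insert x s := by rw [hs, Finset.insert_erase (mem_univ x)]
  have hpow : (univ : Finset (Finset α)) = (insert x s).powerset := by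
    rw [← hun, Finset.powerset_univ]
  have h0 : ∑ t ∈ s.powerset, (-1 : ℤ) ^ t.card = 0 :=
    Finset.sum_powerset_neg_one_pow_card_of_nonempty hx
  have h1 : 2 * ∑ J : Finset α, (-1 : ℤ) ^ J.card * (if g J then 1 else 0) =
      ∑ t ∈ s.powerset, (-1 : ℤ) ^ t.card *
        (1 - 2 * ((if g (insert x t) then 1 else 0) - (if g t then 1 else 0))) := by
    rw [hpow, Finset.sum_powerset_insert hxs, ← Finset.sum_add_distrib, Finset.mul_sum]
    have h2 : ∀ t ∈ s.powerset, (2 : ℤ) * ((-1 : ℤ) ^ t.card * (if g t then 1 else 0) +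
        (-1 : ℤ) ^ (insert x t).card * (if g (insert x t) then 1 else 0)) =
        (-1 : ℤ) ^ t.card *
        (1 - 2 * ((if g (insert x t) then 1 else 0) - (if g t then 1 else 0))) -
        (-1 : ℤ) ^ t.card := by
      intro t ht
      have hxt : x ∉ t := fun h => hxs (Finset.mem_powerset.1 ht h)
      rw [Finset.card_insert_of_notMem hxt, pow_succ]
      ring
    rw [Finset.sum_congr rfl h2, Finset.sum_sub_distrib, h0, sub_zero]
  rw [h1]
  refine (Finset.abs_sum_le_sum_abs _ _).trans ?_
  have h3 : ∀ t ∈ s.powerset, |(-1 : ℤ) ^ t.card *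
        (1 - 2 * ((if g (insert x t) then 1 else 0) - (if g t then 1 else 0)))| ≤ 1 := by
    intro t _
    rw [abs_mul, abs_pow, abs_neg, abs_one, one_pow, one_mul]
    by_cases h4 : g t
    · have h5 : g (insert x t) := hg _ _ (Finset.subset_insert _ _) h4
      simp [h4, h5]
    · by_cases h5 : g (insert x t)
      · simp [h4, h5]
      · simp [h4, h5]
  refine (Finset.sum_le_card_nsmul _ _ 1 h3).trans ?_
  rw [Finset.card_powerset]
  simp

section

open Fin.NatCast Fin.CommRing

variable {m c' : ℕ}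

/-- the residues whose class modulo `c' + 1` belongs to `J` -/
def up (m c' : ℕ) (J : Finset (Fin (c' + 1))) : Finset (Fin (m + 1)) :=
  univ.filter fun j => (⟨j.val % (c' + 1), Nat.mod_lt _ (Nat.succ_pos _)⟩ : Fin (c' + 1)) ∈ J

theorem mem_up (J : Finset (Fin (c' + 1))) (j : Fin (m + 1)) :
    j ∈ up m c' J ↔ (⟨j.val % (c' + 1), Nat.mod_lt _ (Nat.succ_pos _)⟩ : Fin (c' + 1)) ∈ J := by
  simp [up]

theorem card_up {L : ℕ} (hm : m + 1 = (c' + 1) * L) (J : Finset (Fin (c' + 1))) :
    (up m c' J).card = L * J.card := by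
  have h1 : (up m c' J).card = ((univ : Finset (Fin L)) ×ˢ J).card := by
    refine Finset.card_nbij'
      (fun j => (⟨j.val / (c' + 1), Nat.div_lt_of_lt_mul (hm ▸ j.2)⟩,
        ⟨j.val % (c' + 1), Nat.mod_lt _ (Nat.succ_pos _)⟩))
      (fun x => ⟨x.2.val + (c' + 1) * x.1.val, ?_⟩) ?_ ?_ ?_ ?_
    · have h2 := x.1.2
      have h3 := x.2.2
      rw [hm]
      calc x.2.val + (c' + 1) * x.1.val < (c' + 1) + (c' + 1) * x.1.val := by omega
        _ = (c' + 1) * (x.1.val + 1) := by ring
        _ ≤ (c' + 1) * L := Nat.mul_le_mul_left _ h2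
    · intro j hj
      simp only [Finset.coe_product, Finset.coe_univ, Set.mem_prod, Set.mem_univ, true_and,
        Finset.mem_coe]
      exact (mem_up J j).1 hj
    · rintro ⟨x, y⟩ hxy
      rw [Finset.mem_coe, mem_up]
      have h2 : (y.val + (c' + 1) * x.val) % (c' + 1) = y.val := by
        rw [Nat.add_mul_mod_self_left, Nat.mod_eq_of_lt y.2]
      simp only [h2]
      exact (Finset.mem_product.1 hxy).2
    · intro j _
      apply Fin.ext
      exact Nat.mod_add_div _ _
    · rintro ⟨x, y⟩ _
      have h2 : (y.val + (c' + 1) * x.val) % (c' + 1) = y.val := by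
        rw [Nat.add_mul_mod_self_left, Nat.mod_eq_of_lt y.2]
      have h3 : (y.val + (c' + 1) * x.val) / (c' + 1) = x.val := by
        rw [Nat.add_mul_div_left _ _ (Nat.succ_pos _), Nat.div_eq_of_lt y.2, zero_add]
      simp only [h2, h3]
  rw [h1, Finset.card_product, card_univ, Fintype.card_fin]

theorem val_sft_pow (hd : (c' + 1) ∣ m + 1) (t : ℕ) (j : Fin (m + 1)) :
    ((sft m ^ t) j).val % (c' + 1) = (j.val + t) % (c' + 1) := by
  rw [sft_pow, Fin.val_add, Fin.val_natCast, Nat.mod_mod_of_dvd _ hd, Nat.add_mod,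
    Nat.mod_mod_of_dvd _ hd, ← Nat.add_mod]

/-- the sets invariant under the rotation by `c' + 1` -/
theorem fixed_up (hd : (c' + 1) ∣ m + 1) (J : Finset (Fin (c' + 1))) :
    ((sft m) ^ (c' + 1)).finsetCongr (up m c' J) = up m c' J := by
  ext x
  obtain ⟨j, rfl⟩ := ((sft m) ^ (c' + 1)).surjective x
  have h1 : ((sft m) ^ (c' + 1)) j ∈ ((sft m) ^ (c' + 1)).finsetCongr (up m c' J) ↔
      j ∈ up m c' J := by
    rw [Equiv.finsetCongr_apply, Finset.mem_map_equiv, Equiv.symm_apply_apply]
  rw [h1, mem_up, mem_up]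
  have h2 : ((sft m ^ (c' + 1)) j).val % (c' + 1) = j.val % (c' + 1) := by
    rw [val_sft_pow hd, Nat.add_mod_right]
  simp only [h2]

theorem eq_up (hd : (c' + 1) ∣ m + 1) (I : Finset (Fin (m + 1)))
    (h : ((sft m) ^ (c' + 1)).finsetCongr I = I) :
    ∃ J, I = up m c' J := by
  have h1 : ∀ j : Fin (m + 1), j ∈ I → ∀ t : ℕ, (sft m ^ ((c' + 1) * t)) j ∈ I := by
    intro j hj t
    induction t with
    | zero => simpa using hj
    | succ t ih =>
      have h2 : ((sft m) ^ (c' + 1)) ((sft m ^ ((c' + 1) * t)) j) ∈ I := by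
        rw [← h, Equiv.finsetCongr_apply, Finset.mem_map_equiv, Equiv.symm_apply_apply]
        exact ih
      have h3 : (sft m ^ ((c' + 1) * (t + 1))) j =
          ((sft m) ^ (c' + 1)) ((sft m ^ ((c' + 1) * t)) j) := by
        rw [← Equiv.Perm.mul_apply, ← pow_add]
        congr 2
        ring
      rwa [h3]
  have h2 : ∀ i j : Fin (m + 1), i.val % (c' + 1) = j.val % (c' + 1) → i ∈ I → j ∈ I := by
    intro i j hij hi
    obtain ⟨s, hs⟩ : (c' + 1) ∣ j.val + (m + 1) - i.val := by
      have hi2 := i.2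
      have h3 : i.val ≡ j.val + (m + 1) [MOD (c' + 1)] := by
        unfold Nat.ModEq
        have hw : (m + 1) % (c' + 1) = 0 := Nat.mod_eq_zero_of_dvd hd
        rw [Nat.add_mod j.val (m + 1), hw, add_zero, Nat.mod_mod]
        exact hij
      exact (Nat.modEq_iff_dvd' (by omega)).1 h3
    have h3 := h1 i hi s
    have h4 : (sft m ^ ((c' + 1) * s)) i = j := by
      rw [sft_pow, ← hs]
      have h6 : ((i.val : ℕ) : Fin (m + 1)) + ((j.val + (m + 1) - i.val : ℕ) : Fin (m + 1)) =
          ((j.val : ℕ) : Fin (m + 1)) := by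
        rw [← Nat.cast_add]
        have h7 : i.val + (j.val + (m + 1) - i.val) = j.val + (m + 1) := by
          have := i.2
          omega
        rw [h7, Nat.cast_add, Fin.natCast_self, add_zero]
      rwa [Fin.cast_val_eq_self, Fin.cast_val_eq_self] at h6
    rwa [h4] at h3
  refine ⟨univ.filter fun i : Fin (c' + 1) => ∃ j ∈ I, j.val % (c' + 1) = i.val, ?_⟩
  ext j
  rw [mem_up]
  simp only [mem_filter, mem_univ, true_and]
  constructor
  · exact fun hj => ⟨j, hj, rfl⟩
  · rintro ⟨i, hi, hij⟩
    exact h2 i j hij hi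

theorem up_sft (hd : (c' + 1) ∣ m + 1) (J : Finset (Fin (c' + 1))) :
    up m c' ((sft c').finsetCongr J) = (sft m).finsetCongr (up m c' J) := by
  ext x
  obtain ⟨j, rfl⟩ := (sft m).surjective x
  rw [mem_fc, mem_up, mem_up]
  have h1 : (⟨(sft m j).val % (c' + 1), Nat.mod_lt _ (Nat.succ_pos _)⟩ : Fin (c' + 1)) =
      sft c' ⟨j.val % (c' + 1), Nat.mod_lt _ (Nat.succ_pos _)⟩ := by
    apply Fin.ext
    have h2 := val_sft_pow hd 1 j
    rw [pow_one] at h2
    change (sft m j).val % (c' + 1) =
      ((⟨j.val % (c' + 1), Nat.mod_lt _ (Nat.succ_pos _)⟩ : Fin (c' + 1)) + 1).val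
    rw [h2, Fin.val_add, Fin.val_one']
    simp [Nat.add_mod]
  rw [h1, mem_fc]

theorem up_inj (hd : (c' + 1) ∣ m + 1) : Function.Injective (up m c') := by
  intro J J' h
  ext i
  have hlt : i.val < m + 1 := lt_of_lt_of_le i.2 (Nat.le_of_dvd (Nat.succ_pos _) hd)
  have h1 : ∀ J : Finset (Fin (c' + 1)), (⟨i.val, hlt⟩ : Fin (m + 1)) ∈ up m c' J ↔ i ∈ J := by
    intro J
    rw [mem_up]
    simp only [Nat.mod_eq_of_lt i.2]
  rw [← h1 J, ← h1 J', h]

theorem up_mono (J J' : Finset (Fin (c' + 1))) (h : J ⊆ J') : up m c' J ⊆ up m c' J' := by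
  intro j hj
  rw [mem_up] at hj ⊢
  exact h hj

theorem up_univ : up m c' univ = univ := by
  ext j
  simp [mem_up]

theorem up_empty : up m c' ∅ = ∅ := by
  ext j
  simp [mem_up]

open Classical in
/-- **The signed number of the members of a rotation invariant monotone family.** -/
theorem signed_ne_zero {q i l N : ℕ} [Fact q.Prime] [Fact l.Prime] (hc : q ^ i = c' + 1)
    (hm : m + 1 = (c' + 1) * l ^ N) (hl2 : l ≠ 2) (hl : 2 ^ (c' + 1) < 4 * l)
    (v : Finset (Fin (m + 1)) → Prop) (hmono : ∀ I J, I ⊆ J → v I → v J)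
    (hrot : ∀ I, v ((sft m).finsetCongr I) ↔ v I) (h0 : ¬ v ∅) (h1 : v univ) :
    ∑ I : Finset (Fin (m + 1)), (-1 : ℤ) ^ I.card * (if v I then 1 else 0) ≠ 0 := by
  intro key
  have hd : (c' + 1) ∣ m + 1 := ⟨_, hm⟩
  have hcs : ∀ {m : ℕ} (π : Equiv.Perm (Fin (m + 1))) I, (π.finsetCongr I).card = I.card := by
    intro m π I
    rw [Equiv.finsetCongr_apply, Finset.card_map]
  have hrotn : ∀ (t : ℕ) I, v (((sft m) ^ t).finsetCongr I) ↔ v I := by
    intro t I
    induction t with
    | zero =>
      have : ((sft m) ^ 0).finsetCongr I = I := by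
        ext x
        rw [pow_zero, Equiv.finsetCongr_apply, Finset.mem_map_equiv]
        exact Iff.rfl
      rw [this]
    | succ t ih =>
      have : ((sft m) ^ (t + 1)).finsetCongr I =
          (sft m).finsetCongr (((sft m) ^ t).finsetCongr I) := by
        rw [← fc_pow, ← fc_pow, pow_succ']
        rfl
      rw [this, hrot, ih]
  have hf := sum_fixed (((sft m) ^ (c' + 1)).finsetCongr : Equiv.Perm (Finset (Fin (m + 1)))) l N
    (by
      intro I
      rw [fc_pow, ← pow_mul, ← hm, sft_pow_self]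
      ext x
      rw [Equiv.finsetCongr_apply, Finset.mem_map_equiv]
      exact Iff.rfl) (fun I => (-1 : ℤ) ^ I.card * (if v I then 1 else 0)) (by
      intro I
      simp only [hrotn, hcs])
  rw [key] at hf
  have hlodd : Odd (l ^ N) := ((Fact.out : l.Prime).odd_of_ne_two hl2).pow
  set g : Finset (Fin (c' + 1)) → Prop := fun J => v (up m c' J) with hg
  set D : ℤ := ∑ J : Finset (Fin (c' + 1)), (-1 : ℤ) ^ J.card * (if g J then 1 else 0) with hD
  have hfil : (univ.filter fun I : Finset (Fin (m + 1)) =>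
      (((sft m) ^ (c' + 1)).finsetCongr : Equiv.Perm (Finset (Fin (m + 1)))) I = I) =
      univ.image (up m c') := by
    ext I
    simp only [mem_filter, mem_univ, true_and, mem_image]
    constructor
    · intro h
      obtain ⟨J, hJ⟩ := eq_up hd I h
      exact ⟨J, hJ.symm⟩
    · rintro ⟨J, rfl⟩
      exact fixed_up hd J
  have hsum : ∑ I ∈ univ.filter (fun I : Finset (Fin (m + 1)) =>
      (((sft m) ^ (c' + 1)).finsetCongr : Equiv.Perm (Finset (Fin (m + 1)))) I = I),
      (-1 : ℤ) ^ I.card * (if v I then 1 else 0) = D := by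
    rw [hfil, Finset.sum_image (fun J _ J' _ h => up_inj hd h), hD]
    refine Finset.sum_congr rfl fun J _ => ?_
    rw [card_up hm, pow_mul, hlodd.neg_one_pow]
  rw [hsum, zero_sub] at hf
  have hlD : (l : ℤ) ∣ D := (dvd_neg).1 hf
  -- the reduction modulo `q`
  have hgmono : ∀ I J, I ⊆ J → g I → g J := fun I J h h2 => hmono _ _ (up_mono _ _ h) h2
  have hgrot : ∀ J, g ((sft c').finsetCongr J) ↔ g J := by
    intro J
    rw [hg]
    simp only
    rw [up_sft hd, hrot]
  have hg0 : ¬ g ∅ := by
    rw [hg]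
    simp only
    rwa [up_empty]
  have hg1 : g univ := by
    rw [hg]
    simp only
    rwa [up_univ]
  have hf2 := sum_fixed ((sft c').finsetCongr : Equiv.Perm (Finset (Fin (c' + 1)))) q i (by
    intro I
    rw [fc_pow, hc, sft_pow_self]
    ext x
    rw [Equiv.finsetCongr_apply, Finset.mem_map_equiv]
    exact Iff.rfl) (fun J => (-1 : ℤ) ^ J.card * (if g J then 1 else 0)) (by
    intro J
    simp only [hgrot, hcs])
  have hfil2 : (univ.filter fun J : Finset (Fin (c' + 1)) =>
      ((sft c').finsetCongr : Equiv.Perm (Finset (Fin (c' + 1)))) J = J) = {∅, univ} := by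
    ext J
    simp only [mem_filter, mem_univ, true_and, mem_insert, mem_singleton]
    constructor
    · exact fixed_one J
    · rintro (rfl | rfl)
      · simp
      · simp
  have hne : (∅ : Finset (Fin (c' + 1))) ≠ univ := by
    intro h2
    have := Finset.mem_univ (0 : Fin (c' + 1))
    rw [← h2] at this
    exact absurd this (Finset.notMem_empty _)
  rw [hfil2, Finset.sum_pair hne, if_neg hg0, if_pos hg1] at hf2
  simp only [mul_zero, mul_one, zero_add] at hf2
  have hD0 : D ≠ 0 := by
    intro h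
    rw [← hD, h, zero_sub] at hf2
    have h3 : (q : ℤ) ∣ 1 := by
      have h4 := dvd_neg.1 hf2
      rcases neg_one_pow_eq_or ℤ (univ : Finset (Fin (c' + 1))).card with h5 | h5
      · rwa [h5] at h4
      · rw [h5] at h4
        exact dvd_neg.1 h4
    have h4 : q ∣ 1 := by exact_mod_cast h3
    exact (Fact.out : q.Prime).one_lt.ne' (Nat.dvd_one.1 h4)
  -- the size
  have hlt : |D| < l := by
    rcases Nat.eq_zero_or_pos c' with hc0 | hc0
    · subst hc0
      have huniv : (univ : Finset (Finset (Fin (0 + 1)))) = {∅, univ} := by decide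
      have : D = -1 := by
        rw [hD, huniv, Finset.sum_pair hne, if_neg hg0, if_pos hg1]
        simp
      rw [this]
      have := (Fact.out : l.Prime).one_lt
      simp only [abs_neg, abs_one]
      exact_mod_cast this
    · have hx : ((univ : Finset (Fin (c' + 1))).erase 0).Nonempty := by
        refine ⟨Fin.last c', ?_⟩
        rw [Finset.mem_erase]
        refine ⟨?_, mem_univ _⟩
        intro h
        have := congrArg Fin.val h
        rw [Fin.val_last, Fin.val_zero] at this
        omega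
      have h2 := small g hgmono 0 hx
      rw [← hD, Finset.card_erase_of_mem (mem_univ _), card_univ, Fintype.card_fin,
        Nat.add_sub_cancel, abs_mul] at h2
      have h3 : (2 : ℤ) ^ (c' + 1) < 4 * l := by exact_mod_cast hl
      rw [pow_succ] at h3
      have h4 : |(2 : ℤ)| = 2 := by norm_num
      rw [h4] at h2
      linarith
  exact hD0 (Int.eq_zero_of_abs_lt_dvd hlD hlt)

end

end Pool.Agent.Helper243Ev
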