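import Pool.Agent.Helper243_Ev.Sup

set_option autoImplicit false

/-!
# The relation for complete blocks of size `p ^ a + u`
-/

namespace Pool.Agent.Helper243Ev

open Finset
open Pool.Agent.H119R2.Kp (GP PV)
open Pool.Agent.Y46.Kc

variable {k : ℕ} {U : Type}

open Classical in
/-- **The relation.** -/
theorem relSG [Fintype U] {n q : ℕ} {P : SimpleGraph (Fin n) → Prop} (hP : GP n q P) (p a : ℕ)
    [Fact p.Prime] [NeZero k] (hn : k * (p ^ a + Fintype.card U) = n) {m : ℕ} (t : Fin m → ZMod k)
    (ht : Half t) (hq : q < k.choose 2 * (p ^ a) ^ 2) :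
    ∑ I : Finset (Fin m), (-1 : ℤ) ^ I.card *
      (if PV P (SV k (Fin a → ZMod p) U) (SG {z | ∃ j ∈ I, z = t j}) then 1 else 0) = 0 := by
  have hcard : Fintype.card (SV k (Fin a → ZMod p) U) = n := by
    rw [← hn]
    simp [ZMod.card]
  have hcardW : Fintype.card (Fin a → ZMod p) = p ^ a := by
    simp [ZMod.card]
  set gen : ZMod k × Fin a → Equiv.Perm (SV k (Fin a → ZMod p) U) :=
    fun i => ST (Pi.single i.1 (Pi.single i.2 1)) with hgen
  have hTmem : ∀ (K : Subgroup (Equiv.Perm (SV k (Fin a → ZMod p) U))), (∀ i, gen i ∈ K) →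
      ∀ f : ZMod k → Fin a → ZMod p, ST f ∈ K := by
    intro K hK f
    have hzero : ∀ s : Finset (ZMod k × Fin a),
        ST (U := U) (∑ i ∈ s, (f i.1 i.2).val • (Pi.single i.1 (Pi.single i.2 1) :
          ZMod k → Fin a → ZMod p)) ∈ K := by
      intro s
      induction s using Finset.induction_on with
      | empty =>
        rw [Finset.sum_empty, ST_zero]
        exact K.one_mem
      | insert i s hi ih =>
        rw [Finset.sum_insert hi, ST_add, ST_nsmul]
        exact K.mul_mem (K.pow_mem (hK i) _) ih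
    have hf : f = ∑ i : ZMod k × Fin a, (f i.1 i.2).val • (Pi.single i.1 (Pi.single i.2 1) :
          ZMod k → Fin a → ZMod p) := by
      ext x y
      rw [Finset.sum_apply, Finset.sum_apply, Finset.sum_eq_single (x, y)]
      · simp
      · rintro ⟨x', y'⟩ _ hne
        simp only [Pi.smul_apply]
        by_cases hx : x' = x
        · subst hx
          have hy : y' ≠ y := by
            rintro rfl
            exact hne rfl
          simp [Pi.single_apply, hy.symm]
        · simp [Pi.single_apply, Ne.symm hx]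
      · intro h
        exact absurd (mem_univ _) h
    rw [hf]
    exact hzero _
  have key := Pool.Agent.H119R2.Kp.rel hP hcard p (ι := ZMod k × Fin a) gen (SC k _ U)
    (by
      intro i j
      rw [hgen]
      simp only
      rw [← ST_add, ← ST_add, add_comm])
    (by
      intro i
      rw [hgen]
      simp only
      rw [← ST_nsmul]
      have : p • (Pi.single i.1 (Pi.single i.2 1) : ZMod k → Fin a → ZMod p) = 0 := by
        ext x y
        simp
      rw [this, ST_zero])
    (by
      intro i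
      rw [hgen]
      simp only
      rw [conj_ST]
      apply Subgroup.subset_closure
      refine ⟨(i.1 - 1, i.2), ?_⟩
      simp only
      congr 1
      ext x y
      by_cases hx : x = i.1 - 1
      · subst hx
        simp
      · have hx' : x + 1 ≠ i.1 := fun h => hx (by rw [← h]; ring)
        simp [Pi.single_apply, hx, hx'])
    (m := m) (SG ∅) (fun j => SR (t j))
    (fun i u v h => SG_ST _ _ u v h) (fun u v h => SG_SC _ u v h)
    (fun j i u v h => SR_ST _ _ u v h) (fun j u v h => SR_SC _ u v h)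
    (fun i j hij => SR_disj ht i j hij)
    (by
      intro i
      rw [disjoint_iff_inf_le]
      rintro u v ⟨h1, h2⟩
      rcases h1 with h1 | ⟨_, _, h1 | h1⟩
      · exact h2.1 h1.1
      · exact h1
      · exact h1)
    (by
      intro j
      refine ⟨(0, .inl 0), (t j, .inl 0), (ht.ne j).symm, ⟨_, _, rfl, rfl⟩, ?_⟩
      left
      change t j - 0 = t j
      rw [sub_zero])
    (by
      intro j u v u' v' huv huv'
      have hK1 : SC k (Fin a → ZMod p) U ∈ Subgroup.closure (insert (SC k _ U) (Set.range gen)) :=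
        Subgroup.subset_closure (Set.mem_insert _ _)
      have hK2 : ∀ f : ZMod k → Fin a → ZMod p,
          ST f ∈ Subgroup.closure (insert (SC k _ U) (Set.range gen)) := by
        apply hTmem
        intro i
        exact Subgroup.subset_closure (Set.mem_insert_of_mem _ ⟨i, rfl⟩)
      obtain ⟨i1, x1⟩ := u
      obtain ⟨i2, x2⟩ := v
      obtain ⟨i1', x1'⟩ := u'
      obtain ⟨i2', x2'⟩ := v'
      obtain ⟨h1, ⟨w1, w2, h2, h3⟩, h4⟩ := huv
      obtain ⟨h1', ⟨w1', w2', h2', h3'⟩, h4'⟩ := huv'
      simp only at h1 h2 h3 h4 h1' h2' h3' h4'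
      subst h2 h3 h2' h3'
      have hcase : i2 - i1 = i2' - i1' ∨ i2 - i1 = i1' - i2' := by
        rcases h4 with h4 | h4 <;> rcases h4' with h4' | h4'
        · exact Or.inl (h4.trans h4'.symm)
        · exact Or.inr (h4.trans h4'.symm)
        · right
          rw [← neg_sub, h4, ← h4', neg_sub]
        · left
          rw [← neg_sub, h4, ← h4', neg_sub]
      rcases hcase with h5 | h5
      · obtain ⟨g, hg, hg1, hg2⟩ := strans _ hK1 hK2 i1 i2 i1' i2' w1 w2 w1' w2' h1 h5
        exact ⟨g, hg, Or.inl ⟨hg1, hg2⟩⟩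
      · obtain ⟨g, hg, hg1, hg2⟩ := strans _ hK1 hK2 i1 i2 i2' i1' w1 w2 w2' w1' h1 h5
        exact ⟨g, hg, Or.inr ⟨hg1, hg2⟩⟩)
    (lt_of_lt_of_le (by rw [hcardW] at *; exact hq) (scard_edges ht))
  refine Eq.trans (Finset.sum_congr rfl fun I _ => ?_) key
  rw [sup_SR]

open Classical in
/-- the property cannot fail for the disjoint complete blocks and hold as soon as their parts `W`
are joined for one difference of the blocks -/
theorem sno_jump [Fintype U] {n q : ℕ} {P : SimpleGraph (Fin n) → Prop} (hP : GP n q P) (p a : ℕ)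
    [Fact p.Prime] (hk : 2 ≤ k) (hn : k * (p ^ a + Fintype.card U) = n)
    (h0 : ¬ PV P (SV k (Fin a → ZMod p) U) (SG ∅))
    (h1 : ∀ t : ZMod k, t ≠ 0 → PV P (SV k (Fin a → ZMod p) U) (SG {t})) :
    k.choose 2 * (p ^ a) ^ 2 ≤ q := by
  by_contra hq
  push Not at hq
  have : NeZero k := ⟨by omega⟩
  have hall : ∀ I : Finset (Fin (k / 2)), I.Nonempty →
      PV P (SV k (Fin a → ZMod p) U) (SG {z | ∃ j ∈ I, z = tt k j}) := by
    rintro I ⟨j, hj⟩
    refine PV_emb hP.mono (Equiv.refl _) ?_ (h1 (tt k j) ((half_tt k).ne j))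
    rintro x y (h2 | ⟨h2, h3, h4 | h4⟩)
    · exact Or.inl h2
    · exact Or.inr ⟨h2, h3, Or.inl ⟨j, hj, h4⟩⟩
    · exact Or.inr ⟨h2, h3, Or.inr ⟨j, hj, h4⟩⟩
  have key := relSG (U := U) hP p a hn (tt k) (half_tt k) hq
  have hempty : ¬ PV P (SV k (Fin a → ZMod p) U)
      (SG {z | ∃ j ∈ (∅ : Finset (Fin (k / 2))), z = tt k j}) := by
    have : {z : ZMod k | ∃ j ∈ (∅ : Finset (Fin (k / 2))), z = tt k j} = ∅ := by
      ext z
      simp
    rw [this]
    exact h0
  have hne : (univ : Finset (Fin (k / 2))).Nonempty := ⟨⟨0, by omega⟩, mem_univ _⟩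
  have hsum : ∑ I : Finset (Fin (k / 2)), (-1 : ℤ) ^ I.card = 0 := by
    have := Finset.sum_powerset_neg_one_pow_card (x := (univ : Finset (Fin (k / 2))))
    rw [if_neg hne.ne_empty, Finset.powerset_univ] at this
    exact this
  have h2 : ∑ I : Finset (Fin (k / 2)), (-1 : ℤ) ^ I.card *
      (if PV P (SV k (Fin a → ZMod p) U) (SG {z | ∃ j ∈ I, z = tt k j}) then 1 else 0) =
      ∑ I : Finset (Fin (k / 2)), ((-1 : ℤ) ^ I.card - if I = ∅ then 1 else 0) := by
    refine Finset.sum_congr rfl fun I _ => ?_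
    rcases I.eq_empty_or_nonempty with h | h
    · subst h
      rw [if_neg hempty, if_pos rfl]
      simp
    · rw [if_pos (hall I h), if_neg h.ne_empty]
      ring
  rw [h2, Finset.sum_sub_distrib, hsum, Finset.sum_ite_eq' univ (∅ : Finset (Fin (k / 2)))] at key
  simp at key

end Pool.Agent.Helper243Ev
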