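import Pool.Agent.Helper243_Ev.CaseA
import Pool.Agent.Helper243_Ev.SupRel

set_option autoImplicit false

/-!
# Small bandwidth when the number of blocks divides the number of vertices
-/

namespace Pool.Agent.Helper243Ev

open Finset
open Pool.Agent.H119R2.Kp (GP PV)
open Pool.Agent.Y46.Kc

/-- a bijection that maps the first and the last `β` places to the part `W` -/
theorem exists_ends {m β : ℕ} {W U : Type} [Fintype W] [Fintype U] [Nonempty W]
    (hm : Fintype.card W + Fintype.card U = m) (hβ : 2 * β ≤ Fintype.card W) :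
    ∃ e : Fin m ≃ W ⊕ U, ∀ o : Fin m, ((o : ℕ) < β ∨ m ≤ (o : ℕ) + β) → ∃ w, e o = .inl w := by
  classical
  set s : Finset (Fin m) := univ.filter fun o => (o : ℕ) < β ∨ m ≤ (o : ℕ) + β with hs
  have hcard : s.card ≤ 2 * β := by
    have h1 : s.card ≤ (Finset.range β ∪ Finset.Ico (m - β) m).card := by
      rw [← Finset.card_map Fin.valEmbedding]
      apply Finset.card_le_card
      intro x hx
      rw [Finset.mem_map] at hx
      obtain ⟨o, ho, rfl⟩ := hx
      rw [hs, mem_filter] at ho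
      rw [Finset.mem_union, Finset.mem_range, Finset.mem_Ico]
      have := o.2
      change (o : ℕ) < β ∨ m - β ≤ (o : ℕ) ∧ (o : ℕ) < m
      omega
    refine h1.trans ((Finset.card_union_le _ _).trans ?_)
    rw [Finset.card_range, Nat.card_Ico]
    omega
  have h2 : Fintype.card s ≤ Fintype.card W := by
    rw [Fintype.card_coe]
    omega
  obtain ⟨φ⟩ := Function.Embedding.nonempty_of_card_le h2
  obtain ⟨w0⟩ : Nonempty W := inferInstance
  let f : Fin m → W ⊕ U := fun o => if h : o ∈ s then .inl (φ ⟨o, h⟩) else .inl w0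
  have hf : Set.InjOn f s := by
    intro x hx y hy hxy
    simp only [f] at hxy
    rw [dif_pos (Finset.mem_coe.1 hx), dif_pos (Finset.mem_coe.1 hy), Sum.inl.injEq] at hxy
    simpa using φ.injective hxy
  obtain ⟨e, he⟩ := Finset.exists_equiv_extend_of_card_eq (α := Fin m)
    (t := (univ : Finset (W ⊕ U))) (by
      rw [Finset.card_univ, Fintype.card_sum, hm, Fintype.card_fin]) (s := s) (f := f)
    (Finset.subset_univ _) hf
  refine ⟨e.trans (Equiv.subtypeUnivEquiv (fun x => Finset.mem_univ x)), fun o ho => ?_⟩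
  have ho' : o ∈ s := by
    rw [hs, mem_filter]
    exact ⟨mem_univ _, ho⟩
  refine ⟨φ ⟨o, ho'⟩, ?_⟩
  change ((e o : _) : W ⊕ U) = _
  rw [he o ho']
  simp only [f]
  rw [dif_pos ho']

/-- the disjoint union of complete graphs on the intervals of length `m` -/
def blk (n m : ℕ) : SimpleGraph (Fin n) where
  Adj i j := i ≠ j ∧ (i : ℕ) / m = (j : ℕ) / m
  symm := ⟨fun _ _ h => ⟨h.1.symm, h.2.symm⟩⟩
  loopless := ⟨fun _ h => h.1 rfl⟩

/-- **The number of blocks divides the number of vertices.** -/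
theorem caseC {n q k m p a β : ℕ} {P : SimpleGraph (Fin n) → Prop} (hP : GP n q P)
    (hp : p.Prime) (hk : k.Prime) (hn : n = k * m) (hQ : p ^ a ≤ m)
    (hq : q < k.choose 2 * (p ^ a) ^ 2) (hβ : 2 * β ≤ p ^ a)
    (hG : ∃ G, P G ∧ ∀ i j : Fin n, G.Adj i j → (i : ℕ) ≤ j + β)
    (hcomp : ¬ P (blk n m)) : False := by
  classical
  subst hn
  have : Fact p.Prime := ⟨hp⟩
  have : Fact k.Prime := ⟨hk⟩
  have : NeZero k := ⟨hk.ne_zero⟩
  have hcardW : Fintype.card (Fin a → ZMod p) = p ^ a := by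
    simp [ZMod.card]
  have hcardU : p ^ a + Fintype.card (Fin (m - p ^ a)) = m := by
    rw [Fintype.card_fin]
    omega
  have hpa : 0 < p ^ a := pow_pos hp.pos _
  refine absurd hq (not_lt.2 ?_)
  refine sno_jump (k := k) (U := Fin (m - p ^ a)) hP p a hk.two_le (by rw [hcardU]) ?_ ?_
  · intro hPV
    let eB : ZMod k ≃ Fin k := Fintype.equivFinOfCardEq (ZMod.card k)
    let eM : (Fin a → ZMod p) ⊕ Fin (m - p ^ a) ≃ Fin m :=
      Fintype.equivFinOfCardEq (by rw [Fintype.card_sum, hcardW, hcardU])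
    let e : SV k (Fin a → ZMod p) (Fin (m - p ^ a)) ≃ Fin (k * m) :=
      (Equiv.prodCongr eB eM).trans finProdFinEquiv
    have he : ∀ x, (e x : ℕ) = eM x.2 + m * eB x.1 := by
      intro x
      simp [e]
    apply hcomp
    refine hP.mono _ _ ?_ ((Pool.Agent.H119R2.Kp.RelAux.PV_iff hP e _).1 hPV)
    intro i j hij
    refine ⟨hij.ne, ?_⟩
    rw [SimpleGraph.map_adj] at hij
    obtain ⟨x, y, hxy, rfl, rfl⟩ := hij
    have hxy1 : x.1 = y.1 := by
      rcases hxy with ⟨h1, _⟩ | ⟨_, _, h1 | h1⟩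
      · exact h1
      · exact h1.elim
      · exact h1.elim
    change (e x : ℕ) / m = (e y : ℕ) / m
    rw [he, he, hxy1, Nat.add_mul_div_left _ _ (by omega), Nat.add_mul_div_left _ _ (by omega),
      Nat.div_eq_of_lt (eM x.2).2, Nat.div_eq_of_lt (eM y.2).2]
  · intro t ht
    obtain ⟨G, hG1, hG2⟩ := hG
    let eB : Fin k ≃ ZMod k := Equiv.ofBijective (fun j => ((j : ℕ) : ZMod k) * t) (by
      rw [Fintype.bijective_iff_injective_and_card]
      refine ⟨?_, by simp [ZMod.card]⟩
      intro a b hab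
      have h1 : ((a : ℕ) : ZMod k) = ((b : ℕ) : ZMod k) := mul_right_cancel₀ ht hab
      rw [ZMod.natCast_eq_natCast_iff'] at h1
      rw [Nat.mod_eq_of_lt a.2, Nat.mod_eq_of_lt b.2] at h1
      exact Fin.ext h1)
    have heB : ∀ j, eB j = ((j : ℕ) : ZMod k) * t := fun j => rfl
    obtain ⟨e0, he0⟩ := exists_ends (m := m) (β := β) (W := Fin a → ZMod p)
      (U := Fin (m - p ^ a)) (by rw [hcardW, hcardU]) (by rw [hcardW]; exact hβ)
    let e : SV k (Fin a → ZMod p) (Fin (m - p ^ a)) ≃ Fin (k * m) :=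
      (Equiv.prodCongr eB.symm e0.symm).trans finProdFinEquiv
    have he : ∀ b o, (e (eB b, e0 o) : ℕ) = o + m * b := by
      intro b o
      simp [e]
    refine ⟨e, hP.mono _ _ ?_ hG1⟩
    intro i j hij
    obtain ⟨⟨x1, x2⟩, rfl⟩ := e.surjective i
    obtain ⟨⟨y1, y2⟩, rfl⟩ := e.surjective j
    obtain ⟨b, rfl⟩ := eB.surjective x1
    obtain ⟨b', rfl⟩ := eB.surjective y1
    obtain ⟨o, rfl⟩ := e0.surjective x2
    obtain ⟨o', rfl⟩ := e0.surjective y2
    rw [SimpleGraph.map_adj]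
    refine ⟨_, _, ?_, rfl, rfl⟩
    have h1 := hG2 _ _ hij
    have h2 := hG2 _ _ hij.symm
    rw [he, he] at h1 h2
    have ho := o.2
    have ho' := o'.2
    have hkey : ∀ (b b' : Fin k) (o o' : Fin m), (b : ℕ) < b' →
        (o' : ℕ) + m * b' ≤ o + m * b + β →
        (∃ w, e0 o = .inl w) ∧ (∃ w, e0 o' = .inl w) ∧ eB b' - eB b = t := by
      intro b b' o o' hbb h
      have ho := o.2
      have ho' := o'.2
      have h5 : m * (b' : ℕ) < m * ((b : ℕ) + 2) := by
        rw [Nat.mul_add]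
        omega
      have h6 := Nat.lt_of_mul_lt_mul_left h5
      have h7 : (b' : ℕ) = b + 1 := by omega
      rw [h7, Nat.mul_add, mul_one] at h
      refine ⟨he0 o (Or.inr (by omega)), he0 o' (Or.inl (by omega)), ?_⟩
      rw [heB, heB, h7]
      push_cast
      ring
    rcases lt_trichotomy (b : ℕ) b' with h | h | h
    · right
      obtain ⟨h3, h4, h5⟩ := hkey b b' o o' h h2
      refine ⟨fun h6 => ht ?_, ?_, Or.inl h5⟩
      · have h6' : eB b = eB b' := h6
        rw [← h5, h6', sub_self]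
      · obtain ⟨w, hw⟩ := h3
        obtain ⟨w', hw'⟩ := h4
        exact ⟨w, w', hw, hw'⟩
    · left
      have h5 : b = b' := Fin.ext h
      subst h5
      refine ⟨rfl, fun h6 => hij.ne ?_⟩
      have h6' : e0 o = e0 o' := h6
      rw [h6']
    · right
      obtain ⟨h3, h4, h5⟩ := hkey b' b o' o h h1
      refine ⟨fun h6 => ht ?_, ?_, Or.inr h5⟩
      · have h6' : eB b = eB b' := h6
        rw [← h5, h6', sub_self]
      · obtain ⟨w, hw⟩ := h3
        obtain ⟨w', hw'⟩ := h4
        exact ⟨w', w, hw', hw⟩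

end Pool.Agent.Helper243Ev
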