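import Pool.Agent.Helper243_Ev.CaseB
import Pool.Agent.Helper243_Ev.CaseC
import Pool.Agent.H119R2.Kp.NT

set_option autoImplicit false

/-!
# The asymptotic form for connectivity-like properties
-/

namespace Pool.Agent.Helper243Ev

open Finset
open Pool.Agent.H119R2.Kp (GP PV)

/-- `P` contains a graph of bandwidth at most `b` -/
def LowBand (b : ℝ) {n : ℕ} (P : SimpleGraph (Fin n) → Prop) : Prop :=
  ∃ G : SimpleGraph (Fin n), P G ∧ ∀ i j : Fin n, G.Adj i j →
    |((i : ℕ) : ℝ) - ((j : ℕ) : ℝ)| ≤ b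

/-- every graph with `P` has a connected set of at least `x` vertices -/
def BigSet (x : ℝ) {n : ℕ} (P : SimpleGraph (Fin n) → Prop) : Prop :=
  ∀ G : SimpleGraph (Fin n), P G →
    ∃ U : Set (Fin n), (G.induce U).Connected ∧ x ≤ (U.ncard : ℝ)

theorem floor_mul_le {b y : ℝ} {c d : ℕ} (h : (c : ℝ) * b ≤ y) (hy : y ≤ d) :
    c * ⌊b⌋₊ ≤ d := by
  rcases lt_or_ge b 0 with hb | hb
  · rw [Nat.floor_of_nonpos hb.le]
    omega
  · have h1 : (c : ℝ) * (⌊b⌋₊ : ℝ) ≤ (c : ℝ) * b :=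
      mul_le_mul_of_nonneg_left (Nat.floor_le hb) (Nat.cast_nonneg _)
    have h2 : ((c * ⌊b⌋₊ : ℕ) : ℝ) ≤ (d : ℝ) := by
      push_cast
      linarith
    exact_mod_cast h2

theorem LowBand.nat {b : ℝ} {n : ℕ} {P : SimpleGraph (Fin n) → Prop} (h : LowBand b P) :
    ∃ G, P G ∧ ∀ i j : Fin n, G.Adj i j → (i : ℕ) ≤ j + ⌊b⌋₊ := by
  obtain ⟨G, hG1, hG2⟩ := h
  refine ⟨G, hG1, fun i j hij => ?_⟩
  have h1 := (le_abs_self _).trans (hG2 i j hij)
  rcases le_total (i : ℕ) j with h | h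
  · omega
  · have h2 : (((i : ℕ) - (j : ℕ) : ℕ) : ℝ) ≤ b := by
      rw [Nat.cast_sub h]
      exact h1
    have h3 := Nat.le_floor h2
    omega

theorem asymB (k : ℕ) (hk : k.Prime) (η : ℝ) (hη : 0 < η) : ∃ n₀ : ℕ, ∀ n ≥ n₀, ∀ q : ℕ,
    ∀ P : SimpleGraph (Fin n) → Prop, GP n q P →
      (LowBand (n / (3 * k ^ 2)) P ∧ BigSet ((1 - 1 / k + η) * n) P) ∨
      (k ∣ n ∧ LowBand ((1 / (2 * k) - η) * n) P ∧ ¬ P (blk n (n / k))) →
      (1 - 1 / (k : ℝ) - η) * n ^ 2 / 2 ≤ q := by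
  set ν : ℝ := min (η / 2) (1 / 2) with hν
  have hν0 : 0 < ν := lt_min (by linarith) (by norm_num)
  have hν1 : ν ≤ η / 2 := min_le_left _ _
  have hν2 : ν ≤ 1 / 2 := min_le_right _ _
  obtain ⟨N, hN⟩ := Pool.Agent.H119R2.Kp.prime_between ν hν0
  have hK2 : (2 : ℝ) ≤ k := by exact_mod_cast hk.two_le
  set K : ℝ := (k : ℝ) with hK
  have hK0 : 0 < K := by linarith
  refine ⟨⌈(1 + ν) * K * (N + 1)⌉₊ + 1, fun n hn q P hP hch => ?_⟩
  have hn1 : (1 + ν) * K * (N + 1) ≤ n := by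
    have h1 : ⌈(1 + ν) * K * (N + 1)⌉₊ ≤ n := by omega
    exact Nat.ceil_le.1 h1
  have hn0 : (0 : ℝ) < n := by
    have : 1 ≤ n := by omega
    exact_mod_cast this
  set x : ℝ := n / ((1 + ν) * K) with hx
  have hpos : 0 < (1 + ν) * K := by positivity
  have hxN : (N : ℝ) ≤ x := by
    rw [hx, le_div_iff₀ hpos]
    nlinarith [mul_pos hpos hpos]
  obtain ⟨p, hp, hxp, hpx⟩ := hN x hxN
  have hnx : (n : ℝ) = (1 + ν) * K * x := by
    rw [hx]
    field_simp
  have hx0 : 0 < x := by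
    rw [hx]
    positivity
  have hpn : K * p < n := by
    rw [hnx]
    nlinarith
  have hkp : k * p < n := by
    have : ((k * p : ℕ) : ℝ) < n := by
      push_cast
      exact hpn
    exact_mod_cast this
  have hlow : (1 - ν) * n ≤ K * x := by
    rw [hnx]
    have : (1 - ν) * ((1 + ν) * K * x) = (1 - ν ^ 2) * (K * x) := by ring
    rw [this]
    have h1 : 0 < K * x := by positivity
    nlinarith [sq_nonneg ν]
  by_contra hcon
  push Not at hcon
  have hq : q < k.choose 2 * p ^ 2 := by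
    have h1 : (q : ℝ) < ((k.choose 2 * p ^ 2 : ℕ) : ℝ) := by
      push_cast
      rw [Nat.cast_choose_two, ← hK]
      refine lt_of_lt_of_le hcon ?_
      have h2 : (1 - 1 / K - η) * n ^ 2 / 2 = (K - 1 - η * K) * (1 + ν) ^ 2 * (K * x ^ 2) / 2 := by
        rw [hnx]
        field_simp
      have h3 : (K - 1 - η * K) * (1 + ν) ^ 2 ≤ K - 1 := by
        have h4 : (K - 1) * (ν * (2 + ν)) ≤ K * (ν * (2 + ν)) := by
          apply mul_le_mul_of_nonneg_right (by linarith) (by positivity)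
        have h5 : ν * (2 + ν) ≤ η * (1 + ν) ^ 2 := by
          have h6 : 2 * ν * (1 + ν) ^ 2 ≤ η * (1 + ν) ^ 2 :=
            mul_le_mul_of_nonneg_right (by linarith) (by positivity)
          nlinarith [mul_pos hν0 hν0, mul_pos (mul_pos hν0 hν0) hν0]
        have h6 : K * (ν * (2 + ν)) ≤ K * (η * (1 + ν) ^ 2) :=
          mul_le_mul_of_nonneg_left h5 hK0.le
        nlinarith
      have h4 : x ^ 2 ≤ (p : ℝ) ^ 2 := pow_le_pow_left₀ hx0.le hxp.le 2
      rw [h2]
      have h5 : (K - 1 - η * K) * (1 + ν) ^ 2 * (K * x ^ 2) ≤ (K - 1) * (K * x ^ 2) :=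
        mul_le_mul_of_nonneg_right h3 (by positivity)
      have h6 : (K - 1) * (K * x ^ 2) ≤ (K - 1) * (K * p ^ 2) :=
        mul_le_mul_of_nonneg_left (mul_le_mul_of_nonneg_left h4 hK0.le) (by linarith)
      linarith
    exact_mod_cast h1
  rcases hch with ⟨hG, hL⟩ | ⟨⟨m, hm⟩, hG, hL⟩
  · refine caseB (n := n) (p := p) (a := 1) (D := ⌈(1 - 1 / K + η) * n⌉₊) hP hp hk
      (by rw [pow_one]; omega) (by rw [pow_one]; exact hq) ?_ hG.nat ?_ ?_
    · rw [pow_one]
      refine floor_mul_le (y := x) ?_ hxp.le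
      push_cast
      rw [← hK, hnx, mul_div_assoc', div_le_iff₀ (by positivity)]
      have h5 : 2 * (1 + ν) ≤ 3 := by linarith
      have h6 : 2 * (1 + ν) * (K ^ 2 * x) ≤ 3 * (K ^ 2 * x) :=
        mul_le_mul_of_nonneg_right h5 (by positivity)
      nlinarith
    · rw [pow_one]
      have h1 : (n : ℝ) < ((⌈(1 - 1 / K + η) * n⌉₊ + p : ℕ) : ℝ) := by
        push_cast
        have h2 := Nat.le_ceil ((1 - 1 / K + η) * n)
        have h3 : n / K - ν * n ≤ x := by
          have h4 : K * (n / K - ν * n) ≤ K * x := by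
            have h5 : K * (n / K - ν * n) = (1 - K * ν) * n := by
              field_simp
            rw [h5]
            refine le_trans ?_ hlow
            apply mul_le_mul_of_nonneg_right _ hn0.le
            nlinarith
          exact le_of_mul_le_mul_left h4 hK0
        have h4 : (1 - 1 / K + η) * n = n - n / K + η * n := by ring
        have h5 : ν * n ≤ η * n := mul_le_mul_of_nonneg_right (by linarith) hn0.le
        linarith
      exact_mod_cast h1
    · intro G' hG'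
      obtain ⟨U, hU1, hU2⟩ := hL G' hG'
      exact ⟨U, Nat.ceil_le.2 hU2, hU1⟩
  · have hpm : p ≤ m := by
      rw [hm] at hkp
      exact (Nat.lt_of_mul_lt_mul_left hkp).le
    have hnk : n / k = m := by
      rw [hm]
      exact Nat.mul_div_cancel_left m hk.pos
    rw [hnk] at hL
    refine caseC (n := n) (p := p) (a := 1) (m := m) hP hp hk hm (by rw [pow_one]; exact hpm)
      (by rw [pow_one]; exact hq) ?_ hG.nat hL
    rw [pow_one]
    refine floor_mul_le (y := x) ?_ hxp.le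
    push_cast
    have h4 : K * (2 * ((1 / (2 * K) - η) * n)) ≤ K * x := by
      have h5 : K * (2 * ((1 / (2 * K) - η) * n)) = (1 - 2 * K * η) * n := by
        field_simp
      rw [h5]
      refine le_trans ?_ hlow
      apply mul_le_mul_of_nonneg_right _ hn0.le
      nlinarith
    exact le_of_mul_le_mul_left h4 hK0

end Pool.Agent.Helper243Ev
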