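import Pool.Agent.Helper243_Ev.Pat
import Pool.Agent.Y46.Kc.Two

set_option autoImplicit false
set_option linter.unusedSectionVars false
set_option linter.unusedSimpArgs false

/-!
# Complete blocks joined according to a graph on the set of blocks
-/

namespace Pool.Agent.Helper243Ev

open Finset
open Pool.Agent.H119R2.Kp (GP PV)
open Pool.Agent.H98R2.Ev (EV toG toG_adj)

/-- the vertex set: `k` blocks `W` and `r` further vertices -/
abbrev BV (k : ℕ) (W : Type) (r : ℕ) : Type := (ZMod k × W) ⊕ Fin r

variable {k r : ℕ} {W : Type}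

/-- complete blocks, two blocks are joined if they are adjacent in `H`; the `r` further vertices form
a complete graph and are joined to the block `0` -/
def BG (H : SimpleGraph (ZMod k)) : SimpleGraph (BV k W r) where
  Adj
    | .inl x, .inl y => (x.1 = y.1 ∧ x.2 ≠ y.2) ∨ H.Adj x.1 y.1
    | .inl x, .inr _ => x.1 = 0
    | .inr _, .inl x => x.1 = 0
    | .inr u, .inr v => u ≠ v
  symm := ⟨by
    rintro (x | u) (y | v) h
    · rcases h with ⟨h1, h2⟩ | h
      · exact Or.inl ⟨h1.symm, h2.symm⟩
      · exact Or.inr h.symm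
    · exact h
    · exact h
    · exact fun h' => h h'.symm⟩
  loopless := ⟨by
    rintro (x | u) h
    · rcases h with ⟨_, h2⟩ | h
      · exact h2 rfl
      · exact H.loopless.irrefl _ h
    · exact h rfl⟩

/-- the edges between the two blocks of the pair `e` -/
def RE (e : EV (ZMod k)) : SimpleGraph (BV k W r) where
  Adj
    | .inl x, .inl y => s(x.1, y.1) = e.1
    | .inl _, .inr _ => False
    | .inr _, .inl _ => False
    | .inr _, .inr _ => False
  symm := ⟨by
    rintro (x | u) (y | v) h
    · change s(y.1, x.1) = e.1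
      rw [Sym2.eq_swap]
      exact h
    · exact h
    · exact h
    · exact h⟩
  loopless := ⟨by
    rintro (x | u) h
    · apply e.2
      have h' : s(x.1, x.1) = e.1 := h
      rw [← h']
      exact rfl
    · exact h⟩

theorem BG_mono {H H' : SimpleGraph (ZMod k)} (h : H ≤ H') :
    (BG H : SimpleGraph (BV k W r)) ≤ BG H' := by
  rintro (x | u) (y | v) hxy
  · rcases hxy with h1 | h1
    · exact Or.inl h1
    · exact Or.inr (h h1)
  · exact hxy
  · exact hxy
  · exact hxy

theorem sup_RE {m : ℕ} (φ : EV (ZMod k) ≃ Fin m) (I : Finset (Fin m)) :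
    (BG ⊥ : SimpleGraph (BV k W r)) ⊔ ⨆ j ∈ I, RE (φ.symm j) =
      BG (toG (φ.symm.finsetCongr I)) := by
  ext x y
  rw [SimpleGraph.sup_adj, SimpleGraph.iSup_adj]
  simp only [SimpleGraph.iSup_adj]
  rcases x with x | u <;> rcases y with y | v
  · constructor
    · rintro ((h | h) | ⟨j, hj, h⟩)
      · exact Or.inl h
      · exact h.elim
      · right
        rw [toG_adj]
        have h' : s(x.1, y.1) = (φ.symm j).1 := h
        refine ⟨by rw [h']; exact (φ.symm j).2, ?_⟩
        rw [Equiv.finsetCongr_apply, Finset.mem_map_equiv]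
        have h2 : (⟨s(x.1, y.1), by rw [h']; exact (φ.symm j).2⟩ : EV (ZMod k)) = φ.symm j :=
          Subtype.ext h'
        rw [h2]
        simpa using hj
    · rintro (h | h)
      · exact Or.inl (Or.inl h)
      · right
        rw [toG_adj] at h
        obtain ⟨h1, h2⟩ := h
        rw [Equiv.finsetCongr_apply, Finset.mem_map_equiv] at h2
        refine ⟨_, h2, ?_⟩
        change s(x.1, y.1) = (φ.symm (φ.symm.symm _)).1
        rw [Equiv.apply_symm_apply]
  · constructor
    · rintro (h | ⟨j, hj, h⟩)
      · exact h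
      · exact h.elim
    · exact fun h => Or.inl h
  · constructor
    · rintro (h | ⟨j, hj, h⟩)
      · exact h
      · exact h.elim
    · exact fun h => Or.inl h
  · constructor
    · rintro (h | ⟨j, hj, h⟩)
      · exact h
      · exact h.elim
    · exact fun h => Or.inl h

variable [AddCommGroup W]

/-- translation of the blocks by a function -/
def BT (f : ZMod k → W) : Equiv.Perm (BV k W r) :=
  Equiv.sumCongr
    { toFun := fun u => (u.1, u.2 + f u.1)
      invFun := fun u => (u.1, u.2 - f u.1)
      left_inv := fun u => by simp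
      right_inv := fun u => by simp } (Equiv.refl _)

theorem BT_inr (f : ZMod k → W) (a : Fin r) : BT (r := r) f (.inr a) = .inr a := rfl

theorem BT_inl (f : ZMod k → W) (u : ZMod k × W) :
    BT (r := r) f (.inl u) = .inl (u.1, u.2 + f u.1) := rfl

theorem BT_add (f g : ZMod k → W) : BT (r := r) (f + g) = BT f * BT g := by
  apply Equiv.ext
  rintro (u | u)
  · change _ = BT f (BT g (.inl u))
    rw [BT_inl, BT_inl, BT_inl]
    simp only [Pi.add_apply]
    rw [add_comm (f u.1), add_assoc]
  · rfl

theorem BT_zero : BT (r := r) (0 : ZMod k → W) = 1 := by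
  apply Equiv.ext
  rintro (u | u)
  · rw [BT_inl]
    simp
  · rfl

theorem BT_nsmul (n : ℕ) (f : ZMod k → W) : BT (r := r) (n • f) = BT f ^ n := by
  induction n with
  | zero => rw [zero_smul, BT_zero, pow_zero]
  | succ n ih => rw [succ_nsmul, BT_add, ih, pow_succ]

theorem BG_BT (H : SimpleGraph (ZMod k)) (f : ZMod k → W) (u v : BV k W r) (h : (BG H).Adj u v) :
    (BG H).Adj (BT f u) (BT f v) := by
  rcases u with u | u <;> rcases v with v | v
  · rcases h with ⟨h1, h2⟩ | h
    · refine Or.inl ⟨h1, ?_⟩
      change u.2 + f u.1 ≠ v.2 + f v.1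
      rw [h1]
      exact fun h => h2 (add_right_cancel h)
    · exact Or.inr h
  · exact h
  · exact h
  · exact h

theorem RE_BT (e : EV (ZMod k)) (f : ZMod k → W) (u v : BV k W r) (h : (RE e).Adj u v) :
    (RE e).Adj (BT f u) (BT f v) := by
  rcases u with u | u <;> rcases v with v | v <;> exact h

/-- the group of translations acts transitively on the ordered pairs of vertices in two given
blocks -/
theorem btrans (K : Subgroup (Equiv.Perm (BV k W r)))
    (hT : ∀ f : ZMod k → W, BT f ∈ K) (i j : ZMod k) (w v w' v' : W) (h : i ≠ j) :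
    ∃ g ∈ K, g (.inl (i, w)) = .inl (i, w') ∧ g (.inl (j, v)) = .inl (j, v') := by
  classical
  refine ⟨BT (fun x => if x = i then w' - w else v' - v), hT _, ?_, ?_⟩
  · rw [BT_inl]
    simp
  · rw [BT_inl]
    simp [h.symm]

theorem RE_disj (i j : EV (ZMod k)) (hij : i ≠ j) :
    Disjoint (RE (W := W) (r := r) i) (RE j) := by
  rw [disjoint_iff_inf_le]
  rintro (u | u) (v | v) ⟨h1, h2⟩
  · exfalso
    have h1' : s(u.1, v.1) = i.1 := h1
    have h2' : s(u.1, v.1) = j.1 := h2
    exact hij (Subtype.ext (h1'.symm.trans h2'))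
  · exact h1
  · exact h1
  · exact h1

/-- the number of edges between different blocks -/
theorem bcard_edges [NeZero k] [Fintype W] {m : ℕ} (φ : EV (ZMod k) ≃ Fin m) :
    k.choose 2 * Fintype.card W ^ 2 ≤
      ∑ j, Nat.card (RE (W := W) (r := r) (φ.symm j)).edgeSet := by
  classical
  have hsum : ∑ j, Nat.card (RE (W := W) (r := r) (φ.symm j)).edgeSet =
      Nat.card (Σ j, (RE (W := W) (r := r) (φ.symm j)).edgeSet) := by
    rw [Nat.card_sigma]
  rw [hsum]
  have hpairs : k.choose 2 = Nat.card {e : Sym2 (ZMod k) // ¬ e.IsDiag} := by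
    rw [Nat.card_eq_fintype_card, Sym2.card_subtype_not_diag, ZMod.card]
  have key : ∀ e : {e : Sym2 (ZMod k) // ¬ e.IsDiag}, ∃ p : ZMod k × ZMod k, s(p.1, p.2) = e.1 := by
    rintro ⟨e, he⟩
    induction e using Sym2.ind with
    | _ a b => exact ⟨(a, b), rfl⟩
  choose p hp using key
  have hpne : ∀ e, (p e).1 ≠ (p e).2 := by
    intro e h
    apply e.2
    rw [← hp e, h]
    rfl
  let F : {e : Sym2 (ZMod k) // ¬ e.IsDiag} × (W × W) →
      Σ j, (RE (W := W) (r := r) (φ.symm j)).edgeSet := fun x =>
    ⟨φ x.1, ⟨s(.inl ((p x.1).1, x.2.1), .inl ((p x.1).2, x.2.2)), by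
      rw [SimpleGraph.mem_edgeSet]
      change s((p x.1).1, (p x.1).2) = (φ.symm (φ x.1)).1
      rw [Equiv.symm_apply_apply, hp]⟩⟩
  have hF : Function.Injective F := by
    rintro ⟨e, w⟩ ⟨e', w'⟩ h
    have he : e = e' := by
      have := congrArg (fun z : (Σ j, (RE (W := W) (r := r) (φ.symm j)).edgeSet) => z.1) h
      exact φ.injective this
    subst he
    have h2 : (s(Sum.inl ((p e).1, w.1), Sum.inl ((p e).2, w.2)) : Sym2 (BV k W r)) =
        s(Sum.inl ((p e).1, w'.1), Sum.inl ((p e).2, w'.2)) := by
      have := congrArg (fun z : (Σ j, (RE (W := W) (r := r) (φ.symm j)).edgeSet) =>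
        (z.2 : Sym2 (BV k W r))) h
      exact this
    rw [Sym2.eq_iff] at h2
    rcases h2 with ⟨h3, h4⟩ | ⟨h3, h4⟩
    · rw [Sum.inl.injEq, Prod.mk.injEq] at h3 h4
      rw [Prod.mk.injEq]
      exact ⟨rfl, Prod.ext h3.2 h4.2⟩
    · rw [Sum.inl.injEq, Prod.mk.injEq] at h3
      exact absurd h3.1 (hpne e)
  have h3 := Nat.card_le_card_of_injective F hF
  rw [Nat.card_prod, Nat.card_prod, ← hpairs, Nat.card_eq_fintype_card] at h3
  rw [pow_two]
  exact h3

open Classical in
/-- **The relation.** -/
theorem relBG {n q : ℕ} {P : SimpleGraph (Fin n) → Prop} (hP : GP n q P) (p a : ℕ)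
    [Fact p.Prime] [NeZero k] (hn : k * p ^ a + r = n)
    (hq : q < k.choose 2 * (p ^ a) ^ 2) :
    ∑ S : Finset (EV (ZMod k)), (-1 : ℤ) ^ S.card *
      (if PV P (BV k (Fin a → ZMod p) r) (BG (toG S)) then 1 else 0) = 0 := by
  have hcard : Fintype.card (BV k (Fin a → ZMod p) r) = n := by
    rw [← hn]
    simp [ZMod.card]
  have hcardW : Fintype.card (Fin a → ZMod p) = p ^ a := by
    simp [ZMod.card]
  set gen : ZMod k × Fin a → Equiv.Perm (BV k (Fin a → ZMod p) r) :=
    fun i => BT (Pi.single i.1 (Pi.single i.2 1)) with hgen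
  have hTmem : ∀ (K : Subgroup (Equiv.Perm (BV k (Fin a → ZMod p) r))), (∀ i, gen i ∈ K) →
      ∀ f : ZMod k → Fin a → ZMod p, BT f ∈ K := by
    intro K hK f
    have hzero : ∀ s : Finset (ZMod k × Fin a),
        BT (r := r) (∑ i ∈ s, (f i.1 i.2).val • (Pi.single i.1 (Pi.single i.2 1) :
          ZMod k → Fin a → ZMod p)) ∈ K := by
      intro s
      induction s using Finset.induction_on with
      | empty =>
        rw [Finset.sum_empty, BT_zero]
        exact K.one_mem
      | insert i s hi ih =>
        rw [Finset.sum_insert hi, BT_add, BT_nsmul]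
        exact K.mul_mem (K.pow_mem (hK i) _) ih
    have hf : f = ∑ i : ZMod k × Fin a, (f i.1 i.2).val • (Pi.single i.1 (Pi.single i.2 1) :
          ZMod k → Fin a → ZMod p) := by
      ext x y
      rw [Finset.sum_apply, Finset.sum_apply, Finset.sum_eq_single (x, y)]
      · simp
      · rintro ⟨x', y'⟩ _ hne
        simp only [Pi.smul_apply]
        by_cases hx : x' = x
        · subst hx
          have hy : y' ≠ y := by
            rintro rfl
            exact hne rfl
          simp [Pi.single_apply, hy.symm]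
        · simp [Pi.single_apply, Ne.symm hx]
      · intro h
        exact absurd (mem_univ _) h
    rw [hf]
    exact hzero _
  set m := Fintype.card (EV (ZMod k)) with hm
  let φ : EV (ZMod k) ≃ Fin m := Fintype.equivFin _
  have key := Pool.Agent.H119R2.Kp.rel hP hcard p (ι := ZMod k × Fin a) gen 1
    (by
      intro i j
      rw [hgen]
      simp only
      rw [← BT_add, ← BT_add, add_comm])
    (by
      intro i
      rw [hgen]
      simp only
      rw [← BT_nsmul]
      have : p • (Pi.single i.1 (Pi.single i.2 1) : ZMod k → Fin a → ZMod p) = 0 := by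
        ext x y
        simp
      rw [this, BT_zero])
    (by
      intro i
      rw [inv_one, one_mul, mul_one]
      exact Subgroup.subset_closure ⟨i, rfl⟩)
    (m := m) (BG ⊥) (fun j => RE (φ.symm j))
    (fun i u v h => BG_BT _ _ u v h) (fun u v h => h)
    (fun j i u v h => RE_BT _ _ u v h) (fun j u v h => h)
    (fun i j hij => RE_disj _ _ (fun h => hij (φ.symm.injective h)))
    (by
      intro i
      rw [disjoint_iff_inf_le]
      rintro (u | u) (v | v) ⟨h1, h2⟩
      · rcases h1 with ⟨h1, _⟩ | h1
        · apply (φ.symm i).2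
          have h2' : s(u.1, v.1) = (φ.symm i).1 := h2
          rw [← h2', h1]
          exact rfl
        · exact h1
      · exact h2
      · exact h2
      · exact h2)
    (by
      intro j
      obtain ⟨⟨e, he⟩, hj⟩ : ∃ e, φ.symm j = e := ⟨_, rfl⟩
      induction e using Sym2.ind with
      | _ x y =>
        refine ⟨.inl (x, 0), .inl (y, 0), ?_⟩
        change s(x, y) = (φ.symm j).1
        rw [hj])
    (by
      intro j u v u' v' huv huv'
      have hK2 : ∀ f : ZMod k → Fin a → ZMod p,
          BT f ∈ Subgroup.closure (insert (1 : Equiv.Perm (BV k (Fin a → ZMod p) r))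
            (Set.range gen)) := by
        apply hTmem
        intro i
        exact Subgroup.subset_closure (Set.mem_insert_of_mem _ ⟨i, rfl⟩)
      rcases u with ⟨i1, w1⟩ | u <;> rcases v with ⟨i2, w2⟩ | v
      · rcases u' with ⟨i1', w1'⟩ | u' <;> rcases v' with ⟨i2', w2'⟩ | v'
        · have h1 : s(i1, i2) = (φ.symm j).1 := huv
          have h2 : s(i1', i2') = (φ.symm j).1 := huv'
          have hne : i1 ≠ i2 := by
            intro h
            apply (φ.symm j).2
            rw [← h1, h]
            exact rfl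
          have h3 := h2.trans h1.symm
          rw [Sym2.eq_iff] at h3
          rcases h3 with ⟨rfl, rfl⟩ | ⟨rfl, rfl⟩
          · obtain ⟨g, hg, hg1, hg2⟩ := btrans _ hK2 i1' i2' w1 w2 w1' w2' hne
            exact ⟨g, hg, Or.inl ⟨hg1, hg2⟩⟩
          · obtain ⟨g, hg, hg1, hg2⟩ := btrans _ hK2 i2' i1' w1 w2 w2' w1' hne
            exact ⟨g, hg, Or.inr ⟨hg1, hg2⟩⟩
        · exact huv'.elim
        · exact huv'.elim
        · exact huv'.elim
      · exact huv.elim
      · exact huv.elim
      · exact huv.elim)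
    (lt_of_lt_of_le (by rw [hcardW] at *; exact hq) (bcard_edges φ))
  rw [← (φ.symm.finsetCongr).sum_comp]
  refine Eq.trans (Finset.sum_congr rfl fun I _ => ?_) key
  rw [sup_RE, Equiv.finsetCongr_apply, Finset.card_map]

end Pool.Agent.Helper243Ev
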