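import Pool.Agent.Y46.Kc.Top
import Pool.Agent.H119R2.Kp.Rel

set_option autoImplicit false

/-!
# Rotation invariant properties of the graphs on a prime number of vertices
-/

namespace Pool.Agent.Helper243Ev

open Finset
open Pool.Agent.Y46.Kc (fc_pow sum_fixed)
open Pool.Agent.H98R2.Ev (EV toG ep ep_pow ep_one)

/-- the rotation -/
def rot (k : ℕ) : Equiv.Perm (ZMod k) := Equiv.addRight (1 : ZMod k)

theorem rot_apply (k : ℕ) (x : ZMod k) : rot k x = x + 1 := rfl

theorem rot_pow (k n : ℕ) (x : ZMod k) : (rot k ^ n) x = x + n := by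
  induction n with
  | zero => simp
  | succ n ih =>
    rw [pow_succ', Equiv.Perm.mul_apply, ih, rot_apply]
    push_cast
    rw [add_assoc]

theorem rot_pow_self (k : ℕ) : rot k ^ k = 1 := by
  apply Equiv.ext
  intro x
  rw [rot_pow, ZMod.natCast_self, add_zero]
  rfl

open Classical in
/-- a rotation invariant property which fails for the empty graph and holds for all non-empty
rotation invariant graphs on a prime number of vertices has a signed number of members that is not
zero -/
theorem pat_ne_zero (k : ℕ) [NeZero k] (hk : k.Prime) (f : Finset (EV (ZMod k)) → Prop)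
    (h0 : ¬ f ∅) (hrot : ∀ S, f ((ep (rot k)).finsetCongr S) ↔ f S)
    (hB : ∀ S : Finset (EV (ZMod k)), S.Nonempty → (ep (rot k)).finsetCongr S = S → f S) :
    ∑ S : Finset (EV (ZMod k)), (-1 : ℤ) ^ S.card * (if f S then 1 else 0) ≠ 0 := by
  intro key
  have : Fact k.Prime := ⟨hk⟩
  set σ : Equiv.Perm (Finset (EV (ZMod k))) := (ep (rot k)).finsetCongr with hσ
  have hσk : ∀ S, (σ ^ (k ^ 1)) S = S := by
    intro S
    rw [hσ, fc_pow, pow_one, ← ep_pow, rot_pow_self, ep_one]
    ext x
    rw [Equiv.finsetCongr_apply, Finset.mem_map_equiv]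
    exact Iff.rfl
  have hcs : ∀ S, (σ S).card = S.card := by
    intro S
    rw [hσ, Equiv.finsetCongr_apply, Finset.card_map]
  have hf1 := sum_fixed σ k 1 hσk (fun S => (-1 : ℤ) ^ S.card * (if f S then 1 else 0)) (by
    intro S
    have := hrot S
    simp only [hcs, this])
  have hf2 := sum_fixed σ k 1 hσk (fun S => (-1 : ℤ) ^ S.card) (by
    intro S
    simp only [hcs])
  have hE : Nonempty (EV (ZMod k)) := by
    have h2 := hk.two_le
    have : Fact (1 < k) := ⟨hk.one_lt⟩
    exact ⟨⟨s(0, 1), by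
      rw [Sym2.mk_isDiag_iff]
      exact zero_ne_one⟩⟩
  have hne : (univ : Finset (EV (ZMod k))).Nonempty := univ_nonempty
  have hsum : ∑ S : Finset (EV (ZMod k)), (-1 : ℤ) ^ S.card = 0 := by
    have := Finset.sum_powerset_neg_one_pow_card (x := (univ : Finset (EV (ZMod k))))
    rw [if_neg hne.ne_empty, Finset.powerset_univ] at this
    exact this
  have hfix : ∑ S ∈ univ.filter (fun S => σ S = S), (-1 : ℤ) ^ S.card * (if f S then 1 else 0) =
      ∑ S ∈ univ.filter (fun S => σ S = S), (-1 : ℤ) ^ S.card - 1 := by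
    have h2 : ∑ S ∈ univ.filter (fun S => σ S = S),
        (-1 : ℤ) ^ S.card * (if f S then 1 else 0) =
        ∑ S ∈ univ.filter (fun S => σ S = S), ((-1 : ℤ) ^ S.card - if S = ∅ then 1 else 0) := by
      refine Finset.sum_congr rfl fun S hS => ?_
      rcases S.eq_empty_or_nonempty with h | h
      · subst h
        rw [if_neg h0, if_pos rfl]
        simp
      · rw [if_pos (hB S h (mem_filter.1 hS).2), if_neg h.ne_empty]
        ring
    rw [h2, Finset.sum_sub_distrib, Finset.sum_ite_eq' _ (∅ : Finset (EV (ZMod k)))]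
    rw [if_pos]
    simp [hσ]
  rw [key, hfix] at hf1
  rw [hsum] at hf2
  have h3 : (k : ℤ) ∣ 1 := by
    have := dvd_sub hf1 hf2
    have h4 : (0 - (∑ S ∈ univ.filter (fun S => σ S = S), (-1 : ℤ) ^ S.card - 1)) -
        (0 - ∑ S ∈ univ.filter (fun S => σ S = S), (-1 : ℤ) ^ S.card) = 1 := by ring
    rwa [h4] at this
  have h4 : k ∣ 1 := by exact_mod_cast h3
  exact hk.one_lt.ne' (Nat.dvd_one.1 h4)

end Pool.Agent.Helper243Ev
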