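import Pool.Agent.Helper243_Ev.Emb
import Pool.Agent.Helper243_Ev.Pat
import Pool.Agent.H98R2.Ev.T12a

set_option autoImplicit false

/-!
# Graphs of small bandwidth on almost all vertices
-/

namespace Pool.Agent.Helper243Ev

open Finset
open Pool.Agent.H119R2.Kp (GP PV)
open Pool.Agent.H98R2.Ev (EV toG toG_adj ep)

/-- the projection of a connected set lies in one component -/
theorem reach_of_conn {V B : Type} {G : SimpleGraph V} {H : SimpleGraph B} (π : V → B)
    (h : ∀ x y, G.Adj x y → H.Reachable (π x) (π y)) {U : Set V} (hU : (G.induce U).Connected)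
    {x y : V} (hx : x ∈ U) (hy : y ∈ U) : H.Reachable (π x) (π y) := by
  obtain ⟨w⟩ := hU.preconnected ⟨x, hx⟩ ⟨y, hy⟩
  have key : ∀ (a b : U) (w : (G.induce U).Walk a b), H.Reachable (π a) (π b) := by
    intro a b w
    induction w with
    | nil => exact SimpleGraph.Reachable.refl _
    | cons hadj _ ih => exact (h _ _ hadj).trans ih
  exact key _ _ w

/-- a graph with the property `P`, placed on another vertex set, has a large connected set -/
theorem conn_of_PV {n D : ℕ} {P : SimpleGraph (Fin n) → Prop}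
    (hcomp : ∀ G, P G → ∃ U : Set (Fin n), D ≤ U.ncard ∧ (G.induce U).Connected)
    {V B : Type} {G : SimpleGraph V} {H : SimpleGraph B} (π : V → B)
    (h : ∀ x y, G.Adj x y → H.Reachable (π x) (π y)) (hP : PV P V G) :
    ∃ U : Set V, U.Nonempty ∧ D ≤ U.ncard ∧ ∀ x ∈ U, ∀ y ∈ U, H.Reachable (π x) (π y) := by
  obtain ⟨e, he⟩ := hP
  obtain ⟨U, hU1, hU2⟩ := hcomp _ he
  have hfin : Finite V := Finite.of_equiv _ e.symm
  refine ⟨e ⁻¹' U, ?_, ?_, ?_⟩
  · obtain ⟨⟨x, hx⟩⟩ := hU2.nonempty
    exact ⟨e.symm x, by simpa using hx⟩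
  · rwa [← Equiv.image_symm_eq_preimage, Set.ncard_image_of_injective _ e.symm.injective]
  · intro x hx y hy
    have := reach_of_conn (G := G.map e.toEmbedding) (H := H) (fun z => π (e.symm z)) (by
      intro a b hab
      rw [SimpleGraph.map_adj] at hab
      obtain ⟨u, v, huv, rfl, rfl⟩ := hab
      simpa using h u v huv) hU2 hx hy
    simpa using this

/-- a set of vertices that misses a fibre -/
theorem ncard_le_of_miss {V : Type} [Finite V] {W : Type} [Finite W] (U : Set V) (f : W → V)
    (hf : Function.Injective f) (h : ∀ w, f w ∉ U) : U.ncard + Nat.card W ≤ Nat.card V := by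
  have h1 : (Set.range f).ncard = Nat.card W := by
    rw [← Set.image_univ, Set.ncard_image_of_injective _ hf, Set.ncard_univ]
  have h2 : Disjoint U (Set.range f) := by
    rw [Set.disjoint_left]
    rintro x hx ⟨w, rfl⟩
    exact h w hx
  rw [← h1, ← Set.ncard_union_eq h2 (Set.toFinite _) (Set.toFinite _), ← Set.ncard_univ]
  exact Set.ncard_le_ncard (Set.subset_univ _) (Set.toFinite _)

theorem toG_rot {k : ℕ} (S : Finset (EV (ZMod k))) (x y : ZMod k) :
    (toG ((ep (rot k)).finsetCongr S)).Adj (rot k x) (rot k y) ↔ (toG S).Adj x y := by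
  rw [toG_adj, toG_adj, Equiv.finsetCongr_apply]
  constructor
  · rintro ⟨h, h'⟩
    rw [Finset.mem_map_equiv] at h'
    have h3 : ¬ (s(x, y)).IsDiag := by
      rw [Sym2.mk_isDiag_iff] at h ⊢
      exact fun h4 => h (by rw [h4])
    refine ⟨h3, ?_⟩
    convert h' using 1
    rw [Equiv.eq_symm_apply]
    apply Subtype.ext
    simp [ep]
  · rintro ⟨h, h'⟩
    have h3 : ¬ (s(rot k x, rot k y)).IsDiag := by
      rw [Sym2.mk_isDiag_iff] at h ⊢
      exact fun h4 => h ((rot k).injective h4)
    refine ⟨h3, ?_⟩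
    rw [Finset.mem_map_equiv]
    convert h' using 1
    rw [Equiv.symm_apply_eq]
    apply Subtype.ext
    simp [ep]

theorem conn_rot {k : ℕ} (S : Finset (EV (ZMod k))) :
    (toG ((ep (rot k)).finsetCongr S)).Connected ↔ (toG S).Connected := by
  let φ : toG S ≃g toG ((ep (rot k)).finsetCongr S) := ⟨rot k, fun {a b} => toG_rot S a b⟩
  exact φ.connected_iff.symm

theorem conn_of_fixed {k : ℕ} [NeZero k] (hk : k.Prime) (S : Finset (EV (ZMod k)))
    (hS : S.Nonempty) (hfix : (ep (rot k)).finsetCongr S = S) : (toG S).Connected := by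
  have : Fact k.Prime := ⟨hk⟩
  obtain ⟨⟨e, he⟩, heS⟩ := hS
  induction e using Sym2.ind with
  | _ x y =>
    have hadj : (toG S).Adj x y := by
      rw [toG_adj]
      exact ⟨he, heS⟩
    have hrot : ∀ (n : ℕ) (a b : ZMod k), (toG S).Adj a b → (toG S).Adj (a + n) (b + n) := by
      intro n
      induction n with
      | zero => intro a b h; simpa using h
      | succ n ih =>
        intro a b h
        have h2 := (toG_rot S (a + n) (b + n)).2 (ih a b h)
        rw [hfix, rot_apply, rot_apply] at h2
        push_cast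
        rw [← add_assoc, ← add_assoc]
        exact h2
    set d := y - x with hd
    have hd0 : d ≠ 0 := by
      intro h
      exact hadj.ne (sub_eq_zero.1 h).symm
    have hstep : ∀ z : ZMod k, (toG S).Adj z (z + d) := by
      intro z
      have := hrot (z - x).val x y hadj
      rw [ZMod.natCast_zmod_val] at this
      have h1 : x + (z - x) = z := by ring
      have h2 : y + (z - x) = z + d := by rw [hd]; ring
      rwa [h1, h2] at this
    have hwalk : ∀ n : ℕ, (toG S).Reachable 0 (n * d) := by
      intro n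
      induction n with
      | zero => simp
      | succ n ih =>
        refine ih.trans ?_
        have := hstep (n * d)
        push_cast
        rw [add_mul, one_mul]
        exact this.reachable
    have hall : ∀ z : ZMod k, (toG S).Reachable 0 z := by
      intro z
      have := hwalk (z * d⁻¹).val
      rw [ZMod.natCast_zmod_val, mul_assoc, inv_mul_cancel₀ hd0, mul_one] at this
      exact this
    have : Nonempty (ZMod k) := ⟨0⟩
    exact ⟨fun a b => (hall a).symm.trans (hall b)⟩

/-- the projection to the blocks -/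
def prj {k r : ℕ} {W : Type} : BV k W r → ZMod k
  | .inl x => x.1
  | .inr _ => 0

theorem prj_adj {k r : ℕ} {W : Type} (H : SimpleGraph (ZMod k)) (x y : BV k W r)
    (h : (BG H).Adj x y) : H.Reachable (prj x) (prj y) := by
  rcases x with x | u <;> rcases y with y | v
  · rcases h with ⟨h1, _⟩ | h1
    · change H.Reachable x.1 y.1
      rw [h1]
    · exact SimpleGraph.Adj.reachable h1
  · change H.Reachable x.1 0
    have h1 : x.1 = 0 := h
    rw [h1]
  · change H.Reachable 0 y.1
    have h1 : y.1 = 0 := h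
    rw [h1]
  · exact SimpleGraph.Reachable.refl _

/-- **The second case.** -/
theorem caseB {n q k p a β D : ℕ} {P : SimpleGraph (Fin n) → Prop} (hP : GP n q P)
    (hp : p.Prime) (hk : k.Prime) (hn' : k * p ^ a ≤ n) (hq : q < k.choose 2 * (p ^ a) ^ 2)
    (hβ : 2 * k * β ≤ p ^ a)
    (hG : ∃ G, P G ∧ ∀ i j : Fin n, G.Adj i j → (i : ℕ) ≤ j + β) (hD : n < D + p ^ a)
    (hcomp : ∀ G, P G → ∃ U : Set (Fin n), D ≤ U.ncard ∧ (G.induce U).Connected) : False := by
  classical
  have : Fact p.Prime := ⟨hp⟩
  have : NeZero k := ⟨hk.ne_zero⟩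
  obtain ⟨r, hn⟩ : ∃ r, k * p ^ a + r = n := ⟨n - k * p ^ a, by omega⟩
  have hcardW : Fintype.card (Fin a → ZMod p) = p ^ a := by
    simp [ZMod.card]
  have hcardV : Fintype.card (BV k (Fin a → ZMod p) r) = n := by
    rw [← hn]
    simp [ZMod.card]
  have key := relBG (k := k) (r := r) hP p a hn hq
  have hiff : ∀ S : Finset (EV (ZMod k)),
      PV P (BV k (Fin a → ZMod p) r) (BG (toG S)) ↔ (toG S).Connected := by
    intro S
    constructor
    · intro h
      by_contra hcon
      obtain ⟨U, ⟨x0, hx0⟩, hU2, hU3⟩ := conn_of_PV hcomp prj (prj_adj (toG S)) h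
      have hb : ∃ b, ¬ (toG S).Reachable (prj x0) b := by
        by_contra hall
        push Not at hall
        apply hcon
        have : Nonempty (ZMod k) := ⟨0⟩
        exact ⟨fun a b => (hall a).symm.trans (hall b)⟩
      obtain ⟨b, hb⟩ := hb
      have h1 := ncard_le_of_miss U
        (fun w : Fin a → ZMod p => (Sum.inl (b, w) : BV k (Fin a → ZMod p) r)) (by
          intro w w' h
          simpa using h) (by
          intro w hw
          exact hb (hU3 x0 hx0 _ hw))
      rw [Nat.card_eq_fintype_card, Nat.card_eq_fintype_card, hcardW, hcardV] at h1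
      omega
    · intro h
      obtain ⟨e, he⟩ := embed (n := n) hcardW hn hβ (toG S) h
      obtain ⟨G, hG1, hG2⟩ := hG
      refine ⟨e.symm, hP.mono _ _ ?_ hG1⟩
      intro i j hij
      rw [SimpleGraph.map_adj]
      exact ⟨e i, e j, he i j hij.ne (hG2 i j hij) (hG2 j i hij.symm), by simp, by simp⟩
  refine pat_ne_zero k hk (fun S => PV P (BV k (Fin a → ZMod p) r) (BG (toG S))) ?_ ?_ ?_ ?_
  · rw [hiff, Pool.Agent.H98R2.Ev.toG_empty]
    intro h
    have : Fact (1 < k) := ⟨hk.one_lt⟩
    have h2 := h.preconnected 0 1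
    rw [SimpleGraph.reachable_bot] at h2
    exact zero_ne_one h2
  · intro S
    rw [hiff, hiff, conn_rot]
  · intro S hS1 hS2
    rw [hiff]
    exact conn_of_fixed hk S hS1 hS2
  · exact key

end Pool.Agent.Helper243Ev
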