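import Pool.Agent.Helper243_Ev.Chain2
import Pool.Agent.Helper243_Ev.CaseB

set_option autoImplicit false

/-!
# Properties between disjoint unions of cliques and cyclic chains of cliques
-/

namespace Pool.Agent.Helper243Ev

open Finset
open Pool.Agent.H119R2.Kp (GP PV)
open Pool.Agent.Y46.Kc

/-- the edges of `G` are inside of `k` disjoint sets of at most `m` vertices -/
def Split (k m : ℕ) {n : ℕ} (G : SimpleGraph (Fin n)) : Prop :=
  ∃ c : Fin n → Option (ZMod k), (∀ b, {i | c i = some b}.ncard ≤ m) ∧
    ∀ i j, G.Adj i j → ∃ b, c i = some b ∧ c j = some b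

/-- the edges of `G` are inside of `k` disjoint sets of at most `m` vertices or between sets that are
consecutive in the cyclic order -/
def Cyclic (k m : ℕ) {n : ℕ} (G : SimpleGraph (Fin n)) : Prop :=
  ∃ c : Fin n → Option (ZMod k), (∀ b, {i | c i = some b}.ncard ≤ m) ∧
    ∀ i j, G.Adj i j → ∃ a b, c i = some a ∧ c j = some b ∧ (a = b ∨ b = a + 1 ∨ a = b + 1)

/-- **The first case.** -/
theorem caseA {n q k p a : ℕ} {P : SimpleGraph (Fin n) → Prop} (hP : GP n q P)
    (hp : p.Prime) (hk : k.Prime) (hn : k * p ^ a ≤ n) (hq : q < k.choose 2 * (p ^ a) ^ 2)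
    (hG : ∃ G, P G ∧ Cyclic k (p ^ a) G) (hcomp : ∀ G, P G → ¬ Split k (p ^ a) G) : False := by
  classical
  have : Fact p.Prime := ⟨hp⟩
  have : Fact k.Prime := ⟨hk⟩
  have : NeZero k := ⟨hk.ne_zero⟩
  obtain ⟨r, hr⟩ : ∃ r, r + k * p ^ a = n := ⟨n - k * p ^ a, by omega⟩
  have hcardW : Fintype.card (Fin a → ZMod p) = p ^ a := by
    simp [ZMod.card]
  have hcardV : Fintype.card (VV r k (Fin a → ZMod p)) = n := by
    rw [← hr]
    simp [ZMod.card]
  refine no_jump (r := r) hP p a hk.two_le hr hq ⊥ ∅ Set.univ ?_ ?_
  · rintro ⟨e, he⟩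
    apply hcomp _ he
    refine ⟨fun i => match e.symm i with
      | .inl _ => none
      | .inr x => some x.1, ?_, ?_⟩
    · intro b
      have h1 : {i : Fin n | (match e.symm i with
          | .inl _ => (none : Option (ZMod k))
          | .inr x => some x.1) = some b} ⊆ Set.range (fun w : Fin a → ZMod p =>
            e (Sum.inr (b, w))) := by
        intro i hi
        rw [Set.mem_setOf_eq] at hi
        obtain ⟨y, rfl⟩ := e.surjective i
        rw [Equiv.symm_apply_apply] at hi
        rcases y with y | y
        · exact absurd hi (by simp)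
        · have h2 : some y.1 = some b := hi
          rw [Option.some.injEq] at h2
          exact ⟨y.2, by rw [← h2]⟩
      refine (Set.ncard_le_ncard h1 (Set.toFinite _)).trans ?_
      rw [← Set.image_univ]
      refine (Set.ncard_image_le (Set.toFinite _)).trans ?_
      rw [Set.ncard_univ, Nat.card_eq_fintype_card, hcardW]
    · intro i j hij
      rw [SimpleGraph.map_adj] at hij
      obtain ⟨x, y, hxy, rfl, rfl⟩ := hij
      change ∃ b, (match e.symm (e x) with
          | .inl _ => (none : Option (ZMod k))
          | .inr x => some x.1) = some b ∧ (match e.symm (e y) with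
          | .inl _ => (none : Option (ZMod k))
          | .inr x => some x.1) = some b
      rw [Equiv.symm_apply_apply, Equiv.symm_apply_apply]
      rcases x with x | x <;> rcases y with y | y
      · exact hxy.elim
      · exact hxy.elim
      · exact hxy.elim
      · rcases hxy with ⟨h1, _⟩ | ⟨_, h1 | h1⟩
        · exact ⟨x.1, rfl, by rw [h1]⟩
        · exact h1.elim
        · exact h1.elim
  · intro t ht
    obtain ⟨G, hG1, c, hc1, hc2⟩ := hG
    have hg : ∀ b : ZMod k, ∃ g : Fin n → (Fin a → ZMod p), Set.InjOn g {i | c i = some b} := by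
      intro b
      have h1 : Fintype.card {i // c i = some b} ≤ Fintype.card (Fin a → ZMod p) := by
        rw [hcardW, ← Nat.card_eq_fintype_card]
        exact hc1 b
      obtain ⟨φ⟩ := Function.Embedding.nonempty_of_card_le h1
      refine ⟨fun i => if h : c i = some b then φ ⟨i, h⟩ else 0, ?_⟩
      intro i hi j hj hij
      rw [Set.mem_setOf_eq] at hi hj
      simp only at hij
      rw [dif_pos hi, dif_pos hj] at hij
      simpa using φ.injective hij
    choose g hg using hg
    let f : Fin n → VV r k (Fin a → ZMod p) := fun i => match c i with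
      | some b => .inr (b * t, g b i)
      | none => .inr (0, 0)
    have hf : ∀ i b, c i = some b → f i = .inr (b * t, g b i) := by
      intro i b h
      change (match c i with
        | some b => (Sum.inr (b * t, g b i) : VV r k (Fin a → ZMod p))
        | none => .inr (0, 0)) = _
      rw [h]
    set s : Finset (Fin n) := univ.filter fun i => ∃ b, c i = some b with hs
    have hinj : Set.InjOn f s := by
      intro i hi j hj hij
      rw [hs, Finset.mem_coe, mem_filter] at hi hj
      obtain ⟨_, b, hb⟩ := hi
      obtain ⟨_, b', hb'⟩ := hj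
      rw [hf i b hb, hf j b' hb', Sum.inr.injEq, Prod.mk.injEq] at hij
      have h1 : b = b' := mul_right_cancel₀ ht hij.1
      subst h1
      exact hg b hb hb' hij.2
    obtain ⟨e, he⟩ := Finset.exists_equiv_extend_of_card_eq (α := Fin n)
      (t := (univ : Finset (VV r k (Fin a → ZMod p))))
      (by rw [Finset.card_univ, hcardV, Fintype.card_fin]) (s := s) (f := f)
      (Finset.subset_univ _) hinj
    let e' : VV r k (Fin a → ZMod p) ≃ Fin n :=
      ((Equiv.subtypeUnivEquiv (fun x => Finset.mem_univ x)).symm).trans e.symm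
    have he' : ∀ i b, c i = some b → e' (.inr (b * t, g b i)) = i := by
      intro i b h
      have h1 := he i (by rw [hs, mem_filter]; exact ⟨mem_univ _, b, h⟩)
      rw [hf i b h] at h1
      change e.symm ⟨.inr (b * t, g b i), _⟩ = i
      rw [Equiv.symm_apply_eq]
      exact Subtype.ext h1.symm
    refine ⟨e', hP.mono _ _ ?_ hG1⟩
    intro i j hij
    rw [SimpleGraph.map_adj]
    obtain ⟨b, b', hb, hb', h⟩ := hc2 i j hij
    refine ⟨.inr (b * t, g b i), .inr (b' * t, g b' j), ?_, he' i b hb, he' j b' hb'⟩
    by_cases hbb : b = b'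
    · subst hbb
      refine Or.inl ⟨rfl, ?_, Or.inl trivial⟩
      intro h1
      exact hij.ne (hg b hb hb' h1)
    · refine Or.inr ⟨fun h1 => hbb (mul_right_cancel₀ ht h1), ?_⟩
      rcases h with h | h | h
      · exact absurd h hbb
      · left
        change b' * t - b * t = t
        rw [h]
        ring
      · right
        change b * t - b' * t = t
        rw [h]
        ring

end Pool.Agent.Helper243Ev
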