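import Pool.Agent.Helper243_Ev.Abs

set_option autoImplicit false

/-!
# Near-evasiveness for `n = k p ^ a`, `k` a prime such that `(k - 1) / 2 = c l ^ N`
-/

namespace Pool.Agent.Helper243Ev

open Finset
open Pool.Agent.H119R2.Kp (GP PV)
open Pool.Agent.Y46.Kc

open Classical in
/-- the graph with all edges between the blocks is not better than the one without -/
theorem br_three {n q : ℕ} {P : SimpleGraph (Fin n) → Prop} (hP : GP n q P) (p a : ℕ)
    [Fact p.Prime] {k r : ℕ} [Fact k.Prime] (hk : 3 ≤ k) (hn : r + k * p ^ a = n)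
    {c q0 i l N : ℕ} [Fact q0.Prime] [Fact l.Prime] (hc : q0 ^ i = c) (hl2 : l ≠ 2)
    (hcl : 2 ^ c < 4 * l) (hm : 2 * (c * l ^ N) = k - 1) (hq : q < k.choose 2 * (p ^ a) ^ 2)
    (A : SimpleGraph (Fin r)) (S : Set (Fin r)) (X : Set (Fin a → ZMod p))
    (h : PV P (VV r k (Fin a → ZMod p)) (GG A S X Set.univ)) :
    PV P (VV r k (Fin a → ZMod p)) (GG A S X ∅) := by
  have hcpos : 0 < c := by
    rw [← hc]
    exact pow_pos (Fact.out : q0.Prime).pos _
  have hlpos : 0 < l ^ N := pow_pos (Fact.out : l.Prime).pos _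
  obtain ⟨c', rfl⟩ : ∃ c', c = c' + 1 := ⟨c - 1, by omega⟩
  obtain ⟨m, hmm⟩ : ∃ m, (c' + 1) * l ^ N = m + 1 :=
    ⟨(c' + 1) * l ^ N - 1, by have := Nat.mul_pos hcpos hlpos; omega⟩
  rw [hmm] at hm
  obtain ⟨u, hu, hgen⟩ := exists_gen k
  have : NeZero k := ⟨by omega⟩
  have hhalf := half_pw hk u hu hgen hm
  by_contra h0
  set v : Finset (Fin (m + 1)) → Prop := fun I =>
    PV P (VV r k (Fin a → ZMod p)) (GG A S X {z | ∃ j ∈ I, z = pw u (m + 1) j}) with hv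
  have hvuniv : v univ := by
    rw [hv]
    simp only
    rw [GG_full hhalf]
    exact h
  have hvempty : ¬ v ∅ := by
    rw [hv]
    simp only
    rw [GG_none]
    exact h0
  have hvmono : ∀ I J, I ⊆ J → v I → v J := by
    intro I J hIJ hI
    refine PV_emb hP.mono (Equiv.refl _) ?_ hI
    rintro (x | x) (y | y) hxy
    · exact hxy
    · exact hxy
    · exact hxy
    · rcases hxy with h1 | ⟨h1, ⟨j, hj, h2⟩ | ⟨j, hj, h2⟩⟩
      · exact Or.inl h1
      · exact Or.inr ⟨h1, Or.inl ⟨j, hIJ hj, h2⟩⟩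
      · exact Or.inr ⟨h1, Or.inr ⟨j, hIJ hj, h2⟩⟩
  have key : ∑ I : Finset (Fin (m + 1)), (-1 : ℤ) ^ I.card * (if v I then 1 else 0) = 0 :=
    relGG hP p a hn (pw u (m + 1)) hhalf hq A S X
  exact signed_ne_zero hc hmm.symm hl2 hcl v hvmono
    (fun I => val_sft hP.mono hk u hu hm A S X I) hvempty hvuniv key

/-- **Near-evasiveness for `n = k p ^ a`, `(k - 1) / 2 = c l ^ N`.** -/
theorem near3 {n q : ℕ} {P : SimpleGraph (Fin n) → Prop} (hP : GP n q P) (p a : ℕ)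
    (hp : p.Prime) {k r : ℕ} (hk : k.Prime) (hk3 : 3 ≤ k) (hn : r + k * p ^ a = n)
    {c q0 i l N : ℕ} (hq0 : q0.Prime) (hl : l.Prime) (hc : q0 ^ i = c) (hl2 : l ≠ 2)
    (hcl : 2 ^ c < 4 * l) (hm : 2 * (c * l ^ N) = k - 1) (hq : q < k.choose 2 * (p ^ a) ^ 2)
    (A : SimpleGraph (Fin r)) (S : Set (Fin r))
    (h1 : PV P (VV r k (Fin a → ZMod p)) (GG A S Set.univ Set.univ)) :
    PV P (VV r k (Fin a → ZMod p)) (GG A S ∅ ∅) := by
  have : Fact k.Prime := ⟨hk⟩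
  have : Fact l.Prime := ⟨hl⟩
  have : Fact q0.Prime := ⟨hq0⟩
  have : Fact p.Prime := ⟨hp⟩
  exact chain hk3 hP.mono A S
    (fun X h => br_three hP p a hk3 hn hc hl2 hcl hm hq A S X h) h1

end Pool.Agent.Helper243Ev
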