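import Pool.Agent.Helper243_Ev.CaseL
import Pool.Agent.Helper243_Ev.Near3

set_option autoImplicit false

/-!
# Graphs on `k Q` vertices
-/

namespace Pool.Agent.Helper243Ev

open Finset
open Pool.Agent.H119R2.Kp (GP PV)
open Pool.Agent.Y46.Kc

/-- the edges of `G` are between sets that are consecutive in the cyclic order of `k` disjoint sets
of at most `m` vertices -/
def Cyc0 (k m : ℕ) {n : ℕ} (G : SimpleGraph (Fin n)) : Prop :=
  ∃ c : Fin n → ZMod k, (∀ b, {i | c i = b}.ncard ≤ m) ∧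
    ∀ i j, G.Adj i j → (c j = c i + 1 ∨ c i = c j + 1)

/-- a graph between consecutive sets is contained in the blow-up of the cycle of the difference `t` -/
theorem cyc0_PV {n q k p a : ℕ} {P : SimpleGraph (Fin n) → Prop} (hP : GP n q P)
    [Fact p.Prime] [Fact k.Prime] (hr : 0 + k * p ^ a = n) (hG : ∃ G, P G ∧ Cyc0 k (p ^ a) G) :
    ∀ t : ZMod k, t ≠ 0 → PV P (VV 0 k (Fin a → ZMod p)) (GG ⊥ ∅ ∅ {t}) := by
  classical
  have : NeZero k := ⟨(Fact.out : k.Prime).ne_zero⟩
  have hcardW : Fintype.card (Fin a → ZMod p) = p ^ a := by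
    simp [ZMod.card]
  have hcardV : Fintype.card (VV 0 k (Fin a → ZMod p)) = n := by
    rw [← hr]
    simp [ZMod.card]
  intro t ht
  obtain ⟨G, hG1, c, hc1, hc2⟩ := hG
  have hg : ∀ b : ZMod k, ∃ g : Fin n → (Fin a → ZMod p), Set.InjOn g {i | c i = b} := by
    intro b
    have h1 : Fintype.card {i // c i = b} ≤ Fintype.card (Fin a → ZMod p) := by
      rw [hcardW, ← Nat.card_eq_fintype_card]
      exact hc1 b
    obtain ⟨φ⟩ := Function.Embedding.nonempty_of_card_le h1
    refine ⟨fun i => if h : c i = b then φ ⟨i, h⟩ else 0, ?_⟩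
    intro i hi j hj hij
    rw [Set.mem_setOf_eq] at hi hj
    simp only at hij
    rw [dif_pos hi, dif_pos hj] at hij
    simpa using φ.injective hij
  choose g hg using hg
  let f : Fin n → VV 0 k (Fin a → ZMod p) := fun i => .inr (c i * t, g (c i) i)
  have hinj : Function.Injective f := by
    intro i j hij
    simp only [f] at hij
    rw [Sum.inr.injEq, Prod.mk.injEq] at hij
    have h1 : c i = c j := mul_right_cancel₀ ht hij.1
    have h2 := hij.2
    rw [h1] at h2
    exact hg (c j) h1 rfl h2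
  have hbij : Function.Bijective f := by
    rw [Fintype.bijective_iff_injective_and_card]
    exact ⟨hinj, by rw [hcardV, Fintype.card_fin]⟩
  let e : Fin n ≃ VV 0 k (Fin a → ZMod p) := Equiv.ofBijective f hbij
  refine ⟨e.symm, hP.mono _ _ ?_ hG1⟩
  intro i j hij
  rw [SimpleGraph.map_adj]
  refine ⟨e i, e j, ?_, by simp, by simp⟩
  have h1 : c i * t ≠ c j * t ∧ (c j * t - c i * t = t ∨ c i * t - c j * t = t) := by
    rcases hc2 i j hij with h | h
    · have h2 : c j * t - c i * t = t := by rw [h]; ring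
      exact ⟨fun h3 => ht (by rw [← h2, h3, sub_self]), Or.inl h2⟩
    · have h2 : c i * t - c j * t = t := by rw [h]; ring
      exact ⟨fun h3 => ht (by rw [← h2, h3, sub_self]), Or.inr h2⟩
  exact Or.inr h1

/-- **Blow-ups of the cycle.** -/
theorem caseZ {n q k p a : ℕ} {P : SimpleGraph (Fin n) → Prop} (hP : GP n q P) (hp : p.Prime)
    (hk : k.Prime) (hn : n = k * p ^ a) (hq : q < k.choose 2 * (p ^ a) ^ 2) (h0 : ¬ P ⊥)
    (hG : ∃ G, P G ∧ Cyc0 k (p ^ a) G) : False := by
  have : Fact p.Prime := ⟨hp⟩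
  have : Fact k.Prime := ⟨hk⟩
  have hr : 0 + k * p ^ a = n := by rw [zero_add, hn]
  exact no_jump hP p a hk.two_le hr hq ⊥ ∅ ∅ (PV_empty h0) (cyc0_PV hP hr hG)

/-- **More primes.** -/
theorem caseM {n q k p a : ℕ} {P : SimpleGraph (Fin n) → Prop} (hP : GP n q P) (hp : p.Prime)
    (hk : k.Prime) (hn : n = k * p ^ a) (hq : q < k.choose 2 * (p ^ a) ^ 2)
    {c q0 i l N : ℕ} (hq0 : q0.Prime) (hl : l.Prime) (hc : q0 ^ i = c) (hl2 : l ≠ 2)
    (hcl : 2 ^ c < 4 * l) (hm : 2 * (c * l ^ N) = k - 1) (h0 : ¬ P ⊥) (h1 : P ⊤) : False := by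
  have : Fact p.Prime := ⟨hp⟩
  have : NeZero k := ⟨hk.ne_zero⟩
  have hcpos : 0 < c := by
    rw [← hc]
    exact pow_pos hq0.pos _
  have hlpos : 0 < l ^ N := pow_pos hl.pos _
  have hk3 : 3 ≤ k := by
    have := Nat.mul_pos hcpos hlpos
    omega
  have hr : 0 + k * p ^ a = n := by rw [zero_add, hn]
  have hcard : Nonempty (VV 0 k (Fin a → ZMod p) ≃ Fin n) := by
    refine ⟨Fintype.equivFinOfCardEq ?_⟩
    simp [ZMod.card, hn]
  have htop : PV P (VV 0 k (Fin a → ZMod p)) (GG ⊥ ∅ Set.univ Set.univ) := by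
    obtain ⟨e⟩ := hcard
    refine ⟨e, ?_⟩
    refine hP.mono _ _ ?_ h1
    intro x y hxy
    rw [SimpleGraph.map_adj]
    refine ⟨e.symm x, e.symm y, ?_, by simp, by simp⟩
    have hne : e.symm x ≠ e.symm y := fun h => hxy.ne (e.symm.injective h)
    revert hne
    rcases e.symm x with u | u <;> rcases e.symm y with v | v <;> intro hne
    · exact u.elim0
    · exact u.elim0
    · exact v.elim0
    · by_cases h : u.1 = v.1
      · refine Or.inl ⟨h, fun h2 => hne ?_, Or.inl trivial⟩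
        rw [Prod.ext h h2]
      · exact Or.inr ⟨h, Or.inl trivial⟩
  exact PV_empty h0 (near3 hP p a hp hk hk3 hr hq0 hl hc hl2 hcl hm hq ⊥ ∅ htop)

end Pool.Agent.Helper243Ev
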