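import Pool.Agent.Helper243_Ev.CaseA

set_option autoImplicit false

/-!
# Cyclic chains and blocks of size `2 ^ a`
-/

namespace Pool.Agent.Helper243Ev

open Finset
open Pool.Agent.H119R2.Kp (GP PV)
open Pool.Agent.Y46.Kc

/-- a cyclic chain is contained in the blow-up of the cycle of the difference `t` -/
theorem cyclic_PV {n q k p a r : ℕ} {P : SimpleGraph (Fin n) → Prop} (hP : GP n q P)
    [Fact p.Prime] [Fact k.Prime] (hr : r + k * p ^ a = n) (hG : ∃ G, P G ∧ Cyclic k (p ^ a) G) :
    ∀ t : ZMod k, t ≠ 0 → PV P (VV r k (Fin a → ZMod p)) (GG ⊥ ∅ Set.univ {t}) := by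
  classical
  have : NeZero k := ⟨(Fact.out : k.Prime).ne_zero⟩
  have hcardW : Fintype.card (Fin a → ZMod p) = p ^ a := by
    simp [ZMod.card]
  have hcardV : Fintype.card (VV r k (Fin a → ZMod p)) = n := by
    rw [← hr]
    simp [ZMod.card]
  intro t ht
  obtain ⟨G, hG1, c, hc1, hc2⟩ := hG
  have hg : ∀ b : ZMod k, ∃ g : Fin n → (Fin a → ZMod p), Set.InjOn g {i | c i = some b} := by
    intro b
    have h1 : Fintype.card {i // c i = some b} ≤ Fintype.card (Fin a → ZMod p) := by
      rw [hcardW, ← Nat.card_eq_fintype_card]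
      exact hc1 b
    obtain ⟨φ⟩ := Function.Embedding.nonempty_of_card_le h1
    refine ⟨fun i => if h : c i = some b then φ ⟨i, h⟩ else 0, ?_⟩
    intro i hi j hj hij
    rw [Set.mem_setOf_eq] at hi hj
    simp only at hij
    rw [dif_pos hi, dif_pos hj] at hij
    simpa using φ.injective hij
  choose g hg using hg
  let f : Fin n → VV r k (Fin a → ZMod p) := fun i => match c i with
    | some b => .inr (b * t, g b i)
    | none => .inr (0, 0)
  have hf : ∀ i b, c i = some b → f i = .inr (b * t, g b i) := by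
    intro i b h
    change (match c i with
      | some b => (Sum.inr (b * t, g b i) : VV r k (Fin a → ZMod p))
      | none => .inr (0, 0)) = _
    rw [h]
  set s : Finset (Fin n) := univ.filter fun i => ∃ b, c i = some b with hs
  have hinj : Set.InjOn f s := by
    intro i hi j hj hij
    rw [hs, Finset.mem_coe, mem_filter] at hi hj
    obtain ⟨_, b, hb⟩ := hi
    obtain ⟨_, b', hb'⟩ := hj
    rw [hf i b hb, hf j b' hb', Sum.inr.injEq, Prod.mk.injEq] at hij
    have h1 : b = b' := mul_right_cancel₀ ht hij.1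
    subst h1
    exact hg b hb hb' hij.2
  obtain ⟨e, he⟩ := Finset.exists_equiv_extend_of_card_eq (α := Fin n)
    (t := (univ : Finset (VV r k (Fin a → ZMod p))))
    (by rw [Finset.card_univ, hcardV, Fintype.card_fin]) (s := s) (f := f)
    (Finset.subset_univ _) hinj
  let e' : VV r k (Fin a → ZMod p) ≃ Fin n :=
    ((Equiv.subtypeUnivEquiv (fun x => Finset.mem_univ x)).symm).trans e.symm
  have he' : ∀ i b, c i = some b → e' (.inr (b * t, g b i)) = i := by
    intro i b h
    have h1 := he i (by rw [hs, mem_filter]; exact ⟨mem_univ _, b, h⟩)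
    rw [hf i b h] at h1
    change e.symm ⟨.inr (b * t, g b i), _⟩ = i
    rw [Equiv.symm_apply_eq]
    exact Subtype.ext h1.symm
  refine ⟨e', hP.mono _ _ ?_ hG1⟩
  intro i j hij
  rw [SimpleGraph.map_adj]
  obtain ⟨b, b', hb, hb', h⟩ := hc2 i j hij
  refine ⟨.inr (b * t, g b i), .inr (b' * t, g b' j), ?_, he' i b hb, he' j b' hb'⟩
  by_cases hbb : b = b'
  · subst hbb
    refine Or.inl ⟨rfl, ?_, Or.inl trivial⟩
    intro h1
    exact hij.ne (hg b hb hb' h1)
  · refine Or.inr ⟨fun h1 => hbb (mul_right_cancel₀ ht h1), ?_⟩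
    rcases h with h | h | h
    · exact absurd h hbb
    · left
      change b' * t - b * t = t
      rw [h]
      ring
    · right
      change b * t - b' * t = t
      rw [h]
      ring

theorem PV_empty {n r k : ℕ} {W : Type} [AddCommGroup W] {P : SimpleGraph (Fin n) → Prop}
    (h0 : ¬ P ⊥) : ¬ PV P (VV r k W) (GG (⊥ : SimpleGraph (Fin r)) ∅ ∅ ∅) := by
  rintro ⟨e, he⟩
  apply h0
  have h1 : (GG (⊥ : SimpleGraph (Fin r)) ∅ (∅ : Set W) (∅ : Set (ZMod k))).map e.toEmbedding = ⊥ := by
    ext x y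
    rw [SimpleGraph.map_adj]
    constructor
    · rintro ⟨u, v, huv, _⟩
      exfalso
      rcases u with u | u <;> rcases v with v | v
      · exact huv
      · exact huv
      · exact huv
      · rcases huv with ⟨_, _, h | h⟩ | ⟨_, h | h⟩ <;> exact h
    · exact fun h => h.elim
  rwa [h1] at he

/-- **Blocks of size `2 ^ a`.** -/
theorem caseL {n q k a : ℕ} {P : SimpleGraph (Fin n) → Prop} (hP : GP n q P) (hk : k.Prime)
    (hn : k * 2 ^ a ≤ n) (h0 : ¬ P ⊥) (hG : ∃ G, P G ∧ Cyclic k (2 ^ a) G) :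
    k.choose 2 * (2 ^ a) ^ 2 ≤ q := by
  have : Fact k.Prime := ⟨hk⟩
  obtain ⟨r, hr⟩ : ∃ r, r + k * 2 ^ a = n := ⟨n - k * 2 ^ a, by omega⟩
  exact ladder hP a hk.two_le hr ⊥ ∅ (PV_empty h0) (cyclic_PV hP hr hG)

end Pool.Agent.Helper243Ev
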