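import Pool.Agent.Y46.Kc.Two

set_option autoImplicit false

/-!
# Blocks of size `2 ^ a` in a cycle
-/

namespace Pool.Agent.Helper243Ev

open Finset
open Pool.Agent.H119R2.Kp (GP PV)
open Pool.Agent.Y46.Kc

variable {r k : ℕ}

open Classical in
/-- the relation is violated if the property fails without edges between the blocks and holds as
soon as one difference is present -/
theorem no_jump {n q : ℕ} {P : SimpleGraph (Fin n) → Prop} (hP : GP n q P) (p a : ℕ)
    [Fact p.Prime] (hk : 2 ≤ k) (hn : r + k * p ^ a = n) (hq : q < k.choose 2 * (p ^ a) ^ 2)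
    (A : SimpleGraph (Fin r)) (S : Set (Fin r)) (X : Set (Fin a → ZMod p))
    (h0 : ¬ PV P (VV r k (Fin a → ZMod p)) (GG A S X ∅))
    (h1 : ∀ t : ZMod k, t ≠ 0 → PV P (VV r k (Fin a → ZMod p)) (GG A S X {t})) : False := by
  have : NeZero k := ⟨by omega⟩
  have hall : ∀ I : Finset (Fin (k / 2)), I.Nonempty →
      PV P (VV r k (Fin a → ZMod p)) (GG A S X {z | ∃ j ∈ I, z = tt k j}) := by
    rintro I ⟨j, hj⟩
    refine PV_emb hP.mono (Equiv.refl _) ?_ (h1 (tt k j) ((half_tt k).ne j))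
    rintro (x | x) (y | y) hxy
    · exact hxy
    · exact hxy
    · exact hxy
    · rcases hxy with h2 | ⟨h2, h3 | h3⟩
      · exact Or.inl h2
      · exact Or.inr ⟨h2, Or.inl ⟨j, hj, h3⟩⟩
      · exact Or.inr ⟨h2, Or.inr ⟨j, hj, h3⟩⟩
  have key := relGG hP p a hn (tt k) (half_tt k) hq A S X
  have hempty : ¬ PV P (VV r k (Fin a → ZMod p))
      (GG A S X {z | ∃ j ∈ (∅ : Finset (Fin (k / 2))), z = tt k j}) := by
    have : {z : ZMod k | ∃ j ∈ (∅ : Finset (Fin (k / 2))), z = tt k j} = ∅ := by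
      ext z
      simp
    rw [this]
    exact h0
  have hne : (univ : Finset (Fin (k / 2))).Nonempty := ⟨⟨0, by omega⟩, mem_univ _⟩
  have hsum : ∑ I : Finset (Fin (k / 2)), (-1 : ℤ) ^ I.card = 0 := by
    have := Finset.sum_powerset_neg_one_pow_card (x := (univ : Finset (Fin (k / 2))))
    rw [if_neg hne.ne_empty, Finset.powerset_univ] at this
    exact this
  have h2 : ∑ I : Finset (Fin (k / 2)), (-1 : ℤ) ^ I.card *
      (if PV P (VV r k (Fin a → ZMod p)) (GG A S X {z | ∃ j ∈ I, z = tt k j}) then 1 else 0) =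
      ∑ I : Finset (Fin (k / 2)), ((-1 : ℤ) ^ I.card - if I = ∅ then 1 else 0) := by
    refine Finset.sum_congr rfl fun I _ => ?_
    rcases I.eq_empty_or_nonempty with h | h
    · subst h
      rw [if_neg hempty, if_pos rfl]
      simp
    · rw [if_pos (hall I h), if_neg h.ne_empty]
      ring
  rw [h2, Finset.sum_sub_distrib, hsum, Finset.sum_ite_eq' univ (∅ : Finset (Fin (k / 2)))] at key
  simp at key

/-- **Cycles of complete blocks of size `2 ^ a`.** -/
theorem ladder {n q : ℕ} {P : SimpleGraph (Fin n) → Prop} (hP : GP n q P) (a : ℕ) (hk : 2 ≤ k)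
    (hn : r + k * 2 ^ a = n) (A : SimpleGraph (Fin r)) (S : Set (Fin r))
    (h0 : ¬ PV P (VV r k (Fin a → ZMod 2)) (GG A S ∅ ∅))
    (h1 : ∀ t : ZMod k, t ≠ 0 → PV P (VV r k (Fin a → ZMod 2)) (GG A S Set.univ {t})) :
    k.choose 2 * (2 ^ a) ^ 2 ≤ q := by
  by_contra hq
  push Not at hq
  by_cases h2 : PV P (VV r k (Fin a → ZMod 2)) (GG A S Set.univ ∅)
  · exact absurd (two hP a hn A S h0 h2) (not_le.2 hq)
  · exact no_jump hP 2 a hk hn hq A S Set.univ h2 h1

end Pool.Agent.Helper243Ev
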