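import Pool.Agent.Helper243_Ev.BG

set_option autoImplicit false

/-!
# Graphs of small bandwidth in joined complete blocks
-/

namespace Pool.Agent.Helper243Ev

open Finset

/-- a closed walk of length `2 (|V| - 1)` through all vertices -/
theorem exists_tour {V : Type} [Fintype V] [DecidableEq V] (H : SimpleGraph V)
    (hH : H.Connected) (v : V) :
    ∃ w : H.Walk v v, (∀ b, b ∈ w.support) ∧ w.length + 2 ≤ 2 * Fintype.card V := by
  have key : ∀ m : ℕ, m + 1 ≤ Fintype.card V →
      ∃ w : H.Walk v v, w.support.toFinset.card = m + 1 ∧ w.length = 2 * m := by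
    intro m
    induction m with
    | zero => intro _; exact ⟨SimpleGraph.Walk.nil, by simp, by simp⟩
    | succ m ih =>
      intro hm
      obtain ⟨w, hw, hl⟩ := ih (by omega)
      have hex : ∃ b, b ∉ w.support := by
        by_contra hall
        push Not at hall
        have h1 : w.support.toFinset = univ := by
          ext x
          simp [hall x]
        rw [h1, Finset.card_univ] at hw
        omega
      obtain ⟨b, hb⟩ := hex
      obtain ⟨p0⟩ := hH.preconnected v b
      obtain ⟨d, _, hd1, hd2⟩ := p0.exists_boundary_dart {x | x ∈ w.support}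
        (SimpleGraph.Walk.start_mem_support _) hb
      have hd1' : d.fst ∈ w.support := hd1
      have hd2' : d.snd ∉ w.support := hd2
      let w' : H.Walk v v := (w.takeUntil d.fst hd1').append
        (((SimpleGraph.Walk.nil.cons d.adj.symm).cons d.adj).append (w.dropUntil d.fst hd1'))
      have hlen : (w.takeUntil d.fst hd1').length + (w.dropUntil d.fst hd1').length = w.length := by
        rw [← SimpleGraph.Walk.length_append, SimpleGraph.Walk.take_spec]
      have hsup : ∀ x, x ∈ w'.support ↔ x ∈ w.support ∨ x = d.snd := by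
        intro x
        have h1 : x ∈ w.support ↔ x ∈ (w.takeUntil d.fst hd1').support ∨
            x ∈ (w.dropUntil d.fst hd1').support := by
          rw [← SimpleGraph.Walk.mem_support_append_iff, SimpleGraph.Walk.take_spec]
        rw [h1]
        simp only [w', SimpleGraph.Walk.mem_support_append_iff, SimpleGraph.Walk.support_cons,
          SimpleGraph.Walk.support_nil, List.mem_cons, List.not_mem_nil, or_false]
        have h2 : d.fst ∈ (w.takeUntil d.fst hd1').support := SimpleGraph.Walk.end_mem_support _
        constructor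
        · rintro (h | (h | h | h) | h)
          · exact Or.inl (Or.inl h)
          · rw [h]
            exact Or.inl (Or.inl h2)
          · exact Or.inr h
          · rw [h]
            exact Or.inl (Or.inl h2)
          · exact Or.inl (Or.inr h)
        · rintro ((h | h) | h)
          · exact Or.inl h
          · exact Or.inr (Or.inr h)
          · exact Or.inr (Or.inl (Or.inr (Or.inl h)))
      refine ⟨w', ?_, ?_⟩
      · have h1 : w'.support.toFinset = insert d.snd w.support.toFinset := by
          ext x
          rw [List.mem_toFinset, hsup, Finset.mem_insert, List.mem_toFinset, or_comm]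
        rw [h1, Finset.card_insert_of_notMem (by rwa [List.mem_toFinset]), hw]
      · simp only [w', SimpleGraph.Walk.length_append, SimpleGraph.Walk.length_cons,
          SimpleGraph.Walk.length_nil]
        omega
  have hpos : 0 < Fintype.card V := Fintype.card_pos_iff.2 ⟨v⟩
  obtain ⟨w, hw, hl⟩ := key (Fintype.card V - 1) (by omega)
  refine ⟨w, ?_, by omega⟩
  have h1 : w.support.toFinset = univ := by
    rw [← Finset.card_eq_iff_eq_univ]
    omega
  intro b
  rw [← List.mem_toFinset, h1]
  exact mem_univ _

/-- a bijection with prescribed first component -/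
theorem exists_equiv_fiber {X B W : Type} [Fintype X] [Fintype W] [DecidableEq B]
    (f : X → B) (h : ∀ b, Fintype.card {x // f x = b} = Fintype.card W) :
    ∃ e : X ≃ B × W, ∀ x, (e x).1 = f x :=
  ⟨(Equiv.sigmaFiberEquiv f).symm.trans
    ((Equiv.sigmaCongrRight fun b => Fintype.equivOfCardEq (h b)).trans
      (Equiv.sigmaEquivProd B W)), fun _ => rfl⟩

section lengths

variable {B : Type} [DecidableEq B] (seq : ℕ → B) (M Q β : ℕ)

/-- the number of visits of `b` -/
def cnt (b : B) : ℕ := ((range M).filter fun j => seq j = b).card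

open Classical in
/-- the lengths of the intervals: the first visit of a block takes the rest -/
noncomputable def len (j : ℕ) : ℕ :=
  if ∀ i < j, seq i ≠ seq j then Q - (cnt seq M (seq j) - 1) * β else β

theorem cnt_le (b : B) : cnt seq M b ≤ M := by
  unfold cnt
  exact (card_filter_le _ _).trans (card_range M).le

theorem le_len (hM : M * β ≤ Q) {j : ℕ} (hj : j < M) : β ≤ len seq M Q β j := by
  unfold len
  split_ifs
  · have h1 : 1 ≤ cnt seq M (seq j) := by
      unfold cnt
      exact Finset.card_pos.2 ⟨j, by simp [hj]⟩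
    have h2 : cnt seq M (seq j) * β ≤ Q := (Nat.mul_le_mul_right _ (cnt_le _ _ _)).trans hM
    obtain ⟨c, hc⟩ : ∃ c, cnt seq M (seq j) = c + 1 := ⟨_, (Nat.sub_add_cancel h1).symm⟩
    rw [hc, Nat.add_mul, one_mul] at h2
    rw [hc, Nat.add_sub_cancel]
    omega
  · exact le_rfl

theorem sum_len (hM : M * β ≤ Q) (b : B) (hb : ∃ j < M, seq j = b) :
    ∑ j ∈ (range M).filter (fun j => seq j = b), len seq M Q β j = Q := by
  classical
  set j0 := Nat.find hb with hj0
  obtain ⟨h1, h2⟩ := Nat.find_spec hb
  rw [← hj0] at h1 h2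
  have hmin : ∀ i < j0, seq i ≠ b := by
    intro i hi h
    exact Nat.find_min hb hi ⟨hi.trans h1, h⟩
  set S := (range M).filter (fun j => seq j = b) with hS
  have hj0S : j0 ∈ S := by
    rw [hS, mem_filter, mem_range]
    exact ⟨h1, h2⟩
  have hrest : ∀ j ∈ S.erase j0, len seq M Q β j = β := by
    intro j hj
    rw [mem_erase, hS, mem_filter, mem_range] at hj
    unfold len
    rw [if_neg]
    push Not
    have h3 : j0 ≤ j := by
      by_contra h
      push Not at h
      exact hmin j h hj.2.2
    exact ⟨j0, lt_of_le_of_ne h3 (Ne.symm hj.1), by rw [h2, hj.2.2]⟩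
  have hfirst : len seq M Q β j0 = Q - (S.card - 1) * β := by
    unfold len
    rw [if_pos, h2]
    · rfl
    · intro i hi
      rw [h2]
      exact hmin i hi
  rw [← Finset.add_sum_erase S _ hj0S, Finset.sum_congr rfl hrest, Finset.sum_const,
    Finset.card_erase_of_mem hj0S, smul_eq_mul, hfirst]
  have h4 : S.card ≤ M := cnt_le seq M b
  have h5 : (S.card - 1) * β ≤ Q := (Nat.mul_le_mul_right _ (by omega)).trans hM
  omega

end lengths

/-- **The embedding.** A graph of bandwidth at most `β` can be placed on complete blocks of size `Q`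
that are joined according to a connected graph. -/
theorem embed {k r n β Q : ℕ} [NeZero k] {W : Type} [Fintype W] (hW : Fintype.card W = Q)
    (hn : k * Q + r = n) (hβ : 2 * k * β ≤ Q) (H : SimpleGraph (ZMod k))
    (hH : H.Connected) :
    ∃ e : Fin n ≃ BV k W r, ∀ i j : Fin n, i ≠ j → (i : ℕ) ≤ j + β → (j : ℕ) ≤ i + β →
      (BG H).Adj (e i) (e j) := by
  classical
  obtain ⟨w, hw, hlen⟩ := exists_tour H hH 0
  rw [ZMod.card] at hlen
  set M := w.length + 1 with hMdef
  set seq : ℕ → ZMod k := fun j => w.getVert j with hseq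
  have hM : M * β ≤ Q := (Nat.mul_le_mul_right _ (by omega)).trans hβ
  set ℓ : ℕ → ℕ := len seq M Q β with hℓ
  have hsurj : ∀ b, ∃ j < M, seq j = b := by
    intro b
    obtain ⟨j, hj, hj2⟩ := SimpleGraph.Walk.mem_support_iff_exists_getVert.1 (hw b)
    exact ⟨j, by omega, hj⟩
  let X : Type := Σ j : Fin M, Fin (ℓ j)
  have hfib : ∀ b : ZMod k, Fintype.card {x : X // seq x.1 = b} = Fintype.card W := by
    intro b
    have h1 : Fintype.card {x : X // seq x.1 = b} =
        ∑ j : Fin M, if seq j = b then ℓ j else 0 := by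
      rw [Fintype.card_subtype, Finset.card_filter, ← Finset.univ_sigma_univ, Finset.sum_sigma]
      refine Finset.sum_congr rfl fun j _ => ?_
      by_cases h : seq j = b
      · simp [h]
      · simp [h]
    rw [h1, Fin.sum_univ_eq_sum_range (fun j => if seq j = b then ℓ j else 0) M,
      ← Finset.sum_filter, sum_len seq M Q β hM b (hsurj b), hW]
  obtain ⟨eX, heX⟩ := exists_equiv_fiber (fun x : X => seq x.1) hfib
  have htot : ∑ j : Fin M, ℓ j = k * Q := by
    have h1 : Fintype.card X = Fintype.card (ZMod k × W) := Fintype.card_congr eX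
    rw [Fintype.card_prod, ZMod.card, hW] at h1
    rw [← h1]
    simp [X]
  set cum : ℕ → ℕ := fun j => ∑ i ∈ range j, ℓ i with hcum
  let pe : X ≃ Fin (k * Q) := finSigmaFinEquiv.trans (finCongr htot)
  have hpe : ∀ x : X, (pe x : ℕ) = cum x.1 + x.2 := by
    intro x
    change ((finSigmaFinEquiv x : Fin _) : ℕ) = _
    rw [finSigmaFinEquiv_apply, hcum]
    congr 1
    exact Fin.sum_univ_eq_sum_range ℓ x.1
  have hstep : ∀ j, cum (j + 1) = cum j + ℓ j := fun j => Finset.sum_range_succ _ _
  have hmono : Monotone cum := by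
    refine monotone_nat_of_le_succ fun j => ?_
    rw [hstep]
    omega
  let e' : BV k W r ≃ Fin n :=
    ((Equiv.sumCongr (eX.symm.trans pe) (Equiv.refl (Fin r))).trans (Equiv.sumComm _ _)).trans
      (finSumFinEquiv.trans (finCongr (by omega)))
  have he1 : ∀ u : Fin r, (e' (.inr u) : ℕ) = u := by
    intro u
    simp [e']
  have he2 : ∀ y : ZMod k × W, (e' (.inl y) : ℕ) = r + pe (eX.symm y) := by
    intro y
    simp [e']
  have hblock : ∀ y : ZMod k × W, y.1 = seq (eX.symm y).1 := by
    intro y
    rw [← heX, Equiv.apply_symm_apply]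
  -- the main claim
  have hlow : ∀ (y : ZMod k × W), (pe (eX.symm y) : ℕ) < β → y.1 = 0 := by
    intro y hy
    rw [hblock y]
    rw [hpe] at hy
    have h0 : ((eX.symm y).1 : ℕ) = 0 := by
      by_contra h
      have h1 : cum 1 ≤ cum (eX.symm y).1 := hmono (by omega)
      have h2 : cum 1 = ℓ 0 := by simp [hcum]
      have h3 : β ≤ ℓ 0 := le_len seq M Q β hM (by omega)
      omega
    rw [h0, hseq]
    simp
  have hpair : ∀ (y y' : ZMod k × W), y ≠ y' →
      (pe (eX.symm y) : ℕ) ≤ pe (eX.symm y') → (pe (eX.symm y') : ℕ) ≤ pe (eX.symm y) + β →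
      (y.1 = y'.1 ∧ y.2 ≠ y'.2) ∨ H.Adj y.1 y'.1 := by
    intro y y' hne h1 h2
    rw [hblock y, hblock y']
    set x := eX.symm y with hx
    set x' := eX.symm y' with hx'
    rw [hpe, hpe] at h1 h2
    have hx2 := x.2.2
    have hx2' := x'.2.2
    have hj : (x.1 : ℕ) ≤ x'.1 := by
      by_contra h
      push Not at h
      have h3 : cum ((x'.1 : ℕ) + 1) ≤ cum x.1 := hmono h
      rw [hstep] at h3
      omega
    have hj' : (x'.1 : ℕ) ≤ x.1 + 1 := by
      by_contra h
      push Not at h
      have h3 : cum ((x.1 : ℕ) + 1 + 1) ≤ cum x'.1 := hmono h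
      rw [hstep, hstep] at h3
      have h4 : β ≤ ℓ ((x.1 : ℕ) + 1) := le_len seq M Q β hM (by have := x'.1.2; omega)
      omega
    rcases Nat.lt_or_ge (x.1 : ℕ) x'.1 with h | h
    · right
      have h5 : (x'.1 : ℕ) = x.1 + 1 := by omega
      rw [h5]
      exact w.adj_getVert_succ (by have := x'.1.2; omega)
    · left
      have h5 : (x'.1 : ℕ) = x.1 := by omega
      refine ⟨by rw [h5], fun h6 => hne ?_⟩
      refine Prod.ext ?_ h6
      rw [hblock y, hblock y', ← hx, ← hx', h5]
  refine ⟨e'.symm, ?_⟩
  intro i j hij h1 h2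
  obtain ⟨a, rfl⟩ := e'.surjective i
  obtain ⟨b, rfl⟩ := e'.surjective j
  rw [Equiv.symm_apply_apply, Equiv.symm_apply_apply]
  have hab : a ≠ b := fun h => hij (by rw [h])
  rcases a with y | u <;> rcases b with y' | v
  · rw [he2, he2] at h1 h2
    have hne : y ≠ y' := fun h => hab (by rw [h])
    rcases le_total (pe (eX.symm y) : ℕ) (pe (eX.symm y')) with h3 | h3
    · exact hpair y y' hne h3 (by omega)
    · rcases hpair y' y hne.symm h3 (by omega) with ⟨h4, h5⟩ | h4
      · exact Or.inl ⟨h4.symm, h5.symm⟩
      · exact Or.inr h4.symm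
  · rw [he2, he1] at h1 h2
    have := v.2
    exact hlow y (by omega)
  · rw [he2, he1] at h1 h2
    have := u.2
    exact hlow y' (by omega)
  · exact fun h => hab (by rw [h])

end Pool.Agent.Helper243Ev
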