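import Pool.Agent.Y46.Kc.Two

set_option autoImplicit false
set_option linter.unusedSectionVars false
set_option linter.unusedSimpArgs false

/-!
# Complete blocks of size `p ^ a + u`, joined by their parts of size `p ^ a`
-/

namespace Pool.Agent.Helper243Ev

open Finset
open Pool.Agent.H119R2.Kp (GP PV)
open Pool.Agent.Y46.Kc

/-- the vertex set: `k` blocks `W ⊕ U` -/
abbrev SV (k : ℕ) (W U : Type) : Type := ZMod k × (W ⊕ U)

variable {k : ℕ} {W U : Type}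

/-- complete blocks; the parts `W` of two blocks are joined if the difference of the blocks is in
`T`, up to sign -/
def SG (T : Set (ZMod k)) : SimpleGraph (SV k W U) where
  Adj x y := (x.1 = y.1 ∧ x.2 ≠ y.2) ∨
    (x.1 ≠ y.1 ∧ (∃ w w', x.2 = .inl w ∧ y.2 = .inl w') ∧ (y.1 - x.1 ∈ T ∨ x.1 - y.1 ∈ T))
  symm := ⟨by
    rintro x y (⟨h1, h2⟩ | ⟨h1, ⟨w, w', h2, h3⟩, h4⟩)
    · exact Or.inl ⟨h1.symm, h2.symm⟩
    · exact Or.inr ⟨fun h => h1 h.symm, ⟨w', w, h3, h2⟩, h4.symm⟩⟩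
  loopless := ⟨by
    rintro x (⟨_, h⟩ | ⟨h, _⟩)
    · exact h rfl
    · exact h rfl⟩

/-- the edges of difference `± t` -/
def SR (t : ZMod k) : SimpleGraph (SV k W U) where
  Adj x y := x.1 ≠ y.1 ∧ (∃ w w', x.2 = .inl w ∧ y.2 = .inl w') ∧ (y.1 - x.1 = t ∨ x.1 - y.1 = t)
  symm := ⟨by
    rintro x y ⟨h1, ⟨w, w', h2, h3⟩, h4⟩
    exact ⟨fun h => h1 h.symm, ⟨w', w, h3, h2⟩, h4.symm⟩⟩
  loopless := ⟨by
    rintro x ⟨h, _⟩
    exact h rfl⟩

theorem sup_SR {m : ℕ} (t : Fin m → ZMod k) (I : Finset (Fin m)) :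
    (SG ∅ : SimpleGraph (SV k W U)) ⊔ ⨆ j ∈ I, SR (t j) = SG {z | ∃ j ∈ I, z = t j} := by
  ext x y
  rw [SimpleGraph.sup_adj, SimpleGraph.iSup_adj]
  simp only [SimpleGraph.iSup_adj]
  constructor
  · rintro (h | ⟨j, hj, h1, h2, h3⟩)
    · rcases h with h | ⟨_, _, h | h⟩
      · exact Or.inl h
      · exact h.elim
      · exact h.elim
    · exact Or.inr ⟨h1, h2, h3.imp (fun h => ⟨j, hj, h⟩) (fun h => ⟨j, hj, h⟩)⟩
  · rintro (h | ⟨h1, h2, ⟨j, hj, h⟩ | ⟨j, hj, h⟩⟩)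
    · exact Or.inl (Or.inl h)
    · exact Or.inr ⟨j, hj, h1, h2, Or.inl h⟩
    · exact Or.inr ⟨j, hj, h1, h2, Or.inr h⟩

variable [AddCommGroup W]

/-- translation of the parts `W` by a function -/
def ST (f : ZMod k → W) : Equiv.Perm (SV k W U) where
  toFun x := (x.1, x.2.map (fun w => w + f x.1) id)
  invFun x := (x.1, x.2.map (fun w => w - f x.1) id)
  left_inv := by
    rintro ⟨i, w | w⟩ <;> simp
  right_inv := by
    rintro ⟨i, w | w⟩ <;> simp

theorem ST_inl (f : ZMod k → W) (i : ZMod k) (w : W) :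
    ST (U := U) f (i, .inl w) = (i, .inl (w + f i)) := rfl

theorem ST_inr (f : ZMod k → W) (i : ZMod k) (w : U) :
    ST (U := U) f (i, .inr w) = (i, .inr w) := rfl

theorem ST_add (f g : ZMod k → W) : ST (U := U) (f + g) = ST f * ST g := by
  apply Equiv.ext
  rintro ⟨i, w | w⟩
  · change _ = ST f (ST g (i, .inl w))
    rw [ST_inl, ST_inl, ST_inl, Pi.add_apply, add_comm (f i), add_assoc]
  · rfl

theorem ST_zero : ST (U := U) (0 : ZMod k → W) = 1 := by
  apply Equiv.ext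
  rintro ⟨i, w | w⟩
  · rw [ST_inl]
    simp
  · rfl

theorem ST_nsmul (n : ℕ) (f : ZMod k → W) : ST (U := U) (n • f) = ST f ^ n := by
  induction n with
  | zero => rw [zero_smul, ST_zero, pow_zero]
  | succ n ih => rw [succ_nsmul, ST_add, ih, pow_succ]

/-- rotation of the blocks -/
def SC (k : ℕ) (W U : Type) : Equiv.Perm (SV k W U) :=
  Equiv.prodCongr (Equiv.addRight (1 : ZMod k)) (Equiv.refl _)

theorem SC_apply (x : SV k W U) : SC k W U x = (x.1 + 1, x.2) := rfl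

theorem SC_pow (n : ℕ) (x : SV k W U) : (SC k W U ^ n) x = (x.1 + n, x.2) := by
  induction n with
  | zero => simp
  | succ n ih =>
    rw [pow_succ', Equiv.Perm.mul_apply, ih, SC_apply]
    push_cast
    rw [add_assoc]

theorem conj_ST (f : ZMod k → W) :
    (SC k W U)⁻¹ * ST f * SC k W U = ST (fun i => f (i + 1)) := by
  rw [mul_assoc, inv_mul_eq_iff_eq_mul]
  apply Equiv.ext
  rintro ⟨i, w | w⟩ <;> rfl

theorem ST_fst (f : ZMod k → W) (x : SV k W U) : (ST f x).1 = x.1 := rfl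

theorem ST_isInl (f : ZMod k → W) (x : SV k W U) (h : ∃ w, x.2 = .inl w) :
    ∃ w, (ST f x).2 = .inl w := by
  obtain ⟨i, x⟩ := x
  obtain ⟨w, rfl⟩ := h
  exact ⟨w + f i, rfl⟩

theorem SG_ST (Y : Set (ZMod k)) (f : ZMod k → W) (x y : SV k W U) (h : (SG Y).Adj x y) :
    (SG Y).Adj (ST f x) (ST f y) := by
  rcases h with ⟨h1, h2⟩ | ⟨h1, ⟨w, w', h2, h3⟩, h4⟩
  · refine Or.inl ⟨h1, fun h => ?_⟩
    have h5 : ST f x = ST f y := Prod.ext h1 h
    exact h2 (congrArg Prod.snd ((ST f).injective h5))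
  · obtain ⟨v, hv⟩ := ST_isInl f x ⟨w, h2⟩
    obtain ⟨v', hv'⟩ := ST_isInl f y ⟨w', h3⟩
    exact Or.inr ⟨h1, ⟨v, v', hv, hv'⟩, h4⟩

theorem SR_ST (t : ZMod k) (f : ZMod k → W) (x y : SV k W U) (h : (SR t).Adj x y) :
    (SR t).Adj (ST f x) (ST f y) := by
  obtain ⟨h1, ⟨w, w', h2, h3⟩, h4⟩ := h
  obtain ⟨v, hv⟩ := ST_isInl f x ⟨w, h2⟩
  obtain ⟨v', hv'⟩ := ST_isInl f y ⟨w', h3⟩
  exact ⟨h1, ⟨v, v', hv, hv'⟩, h4⟩

theorem SG_SC (Y : Set (ZMod k)) (x y : SV k W U) (h : (SG Y).Adj x y) :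
    (SG Y).Adj (SC k W U x) (SC k W U y) := by
  rcases h with ⟨h1, h2⟩ | ⟨h1, h2, h4⟩
  · exact Or.inl ⟨congrArg (· + 1) h1, h2⟩
  · refine Or.inr ⟨fun h => h1 (add_right_cancel h), h2, ?_⟩
    change (y.1 + 1 - (x.1 + 1) ∈ Y ∨ x.1 + 1 - (y.1 + 1) ∈ Y)
    rw [add_sub_add_right_eq_sub, add_sub_add_right_eq_sub]
    exact h4

theorem SR_SC (t : ZMod k) (x y : SV k W U) (h : (SR t).Adj x y) :
    (SR t).Adj (SC k W U x) (SC k W U y) := by
  obtain ⟨h1, h2, h4⟩ := h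
  refine ⟨fun h => h1 (add_right_cancel h), h2, ?_⟩
  change (y.1 + 1 - (x.1 + 1) = t ∨ x.1 + 1 - (y.1 + 1) = t)
  rw [add_sub_add_right_eq_sub, add_sub_add_right_eq_sub]
  exact h4

/-- the group acts transitively on the ordered pairs of vertices of the parts `W` of a given
difference of the blocks -/
theorem strans [NeZero k] (K : Subgroup (Equiv.Perm (SV k W U))) (hC : SC k W U ∈ K)
    (hT : ∀ f : ZMod k → W, ST f ∈ K) (i j i' j' : ZMod k) (w v w' v' : W) (h : i ≠ j)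
    (h1 : j - i = j' - i') :
    ∃ g ∈ K, g (i, .inl w) = (i', .inl w') ∧ g (j, .inl v) = (j', .inl v') := by
  classical
  obtain ⟨n, hn⟩ : ∃ n : ℕ, (n : ZMod k) = i' - i := ⟨(i' - i).val, ZMod.natCast_zmod_val _⟩
  have hj : j + n = j' := by
    rw [hn]
    have : j = j' - i' + i := by rw [← h1]; ring
    rw [this]
    ring
  have hi : i + n = i' := by
    rw [hn]
    ring
  have hne : j' ≠ i' := by
    rw [← hj, ← hi]
    exact fun h' => h (add_right_cancel h').symm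
  refine ⟨ST (fun x => if x = i' then w' - w else v' - v) * SC k W U ^ n,
    K.mul_mem (hT _) (K.pow_mem hC n), ?_, ?_⟩
  · rw [Equiv.Perm.mul_apply, SC_pow, ST_inl]
    simp [hi]
  · rw [Equiv.Perm.mul_apply, SC_pow, ST_inl]
    simp [hj, hne]

section count

variable {m : ℕ}

theorem SR_disj {t : Fin m → ZMod k} (ht : Half t) (i j : Fin m) (hij : i ≠ j) :
    Disjoint (SR (W := W) (U := U) (t i)) (SR (t j)) := by
  rw [disjoint_iff_inf_le]
  intro x y h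
  obtain ⟨⟨_, _, h1⟩, ⟨_, _, h2⟩⟩ := h
  exfalso
  apply hij
  rcases h1 with h3 | h3 <;> rcases h2 with h4 | h4
  · exact ht.inj i j (Or.inl (h3.symm.trans h4))
  · refine ht.inj i j (Or.inr ?_)
    rw [← h3, ← h4]
    ring
  · refine ht.inj i j (Or.inr ?_)
    rw [← h3, ← h4]
    ring
  · exact ht.inj i j (Or.inl (h3.symm.trans h4))

/-- the number of edges between the parts `W` of different blocks -/
theorem scard_edges [NeZero k] [Fintype W] [Finite U] {t : Fin m → ZMod k} (ht : Half t) :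
    k.choose 2 * Fintype.card W ^ 2 ≤ ∑ j, Nat.card (SR (W := W) (U := U) (t j)).edgeSet := by
  classical
  have hsum : ∑ j, Nat.card (SR (W := W) (U := U) (t j)).edgeSet =
      Nat.card (Σ j, (SR (W := W) (U := U) (t j)).edgeSet) := by
    rw [Nat.card_sigma]
  rw [hsum]
  -- pairs of different blocks
  have hpairs : k.choose 2 = Nat.card {e : Sym2 (ZMod k) // ¬ e.IsDiag} := by
    rw [Nat.card_eq_fintype_card, Sym2.card_subtype_not_diag, ZMod.card]
  have key : ∀ e : {e : Sym2 (ZMod k) // ¬ e.IsDiag}, ∃ p : ZMod k × ZMod k, s(p.1, p.2) = e.1 := by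
    rintro ⟨e, he⟩
    induction e using Sym2.ind with
    | _ a b => exact ⟨(a, b), rfl⟩
  choose p hp using key
  have hpne : ∀ e, (p e).1 ≠ (p e).2 := by
    intro e h
    apply e.2
    rw [← hp e, h]
    rfl
  have hj : ∀ e, ∃ j, (p e).2 - (p e).1 = t j ∨ (p e).1 - (p e).2 = t j := by
    intro e
    obtain ⟨j, hj⟩ := ht.surj ((p e).2 - (p e).1) (sub_ne_zero.2 (hpne e).symm)
    refine ⟨j, hj.imp id fun h => ?_⟩
    rw [← neg_sub, h, neg_neg]
  choose J hJ using hj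
  let F : {e : Sym2 (ZMod k) // ¬ e.IsDiag} × (W × W) →
      Σ j, (SR (W := W) (U := U) (t j)).edgeSet := fun x =>
    ⟨J x.1, ⟨s(((p x.1).1, .inl x.2.1), ((p x.1).2, .inl x.2.2)), by
      rw [SimpleGraph.mem_edgeSet]
      exact ⟨hpne x.1, ⟨_, _, rfl, rfl⟩, hJ x.1⟩⟩⟩
  have hF : Function.Injective F := by
    rintro ⟨e, w⟩ ⟨e', w'⟩ h
    have h2 : (s(((p e).1, Sum.inl w.1), ((p e).2, Sum.inl w.2)) : Sym2 (SV k W U)) =
        s(((p e').1, Sum.inl w'.1), ((p e').2, Sum.inl w'.2)) := by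
      have := congrArg (fun z : (Σ j, (SR (W := W) (U := U) (t j)).edgeSet) => z.2.1) h
      exact this
    have he : e = e' := by
      apply Subtype.ext
      rw [← hp e, ← hp e', Sym2.eq_iff]
      rw [Sym2.eq_iff] at h2
      rcases h2 with ⟨h3, h4⟩ | ⟨h3, h4⟩
      · rw [Prod.mk.injEq] at h3 h4
        exact Or.inl ⟨h3.1, h4.1⟩
      · rw [Prod.mk.injEq] at h3 h4
        exact Or.inr ⟨h3.1, h4.1⟩
    subst he
    rw [Sym2.eq_iff] at h2
    rcases h2 with ⟨h3, h4⟩ | ⟨h3, h4⟩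
    · rw [Prod.mk.injEq, Sum.inl.injEq] at h3 h4
      rw [Prod.mk.injEq]
      exact ⟨rfl, Prod.ext h3.2 h4.2⟩
    · rw [Prod.mk.injEq, Sum.inl.injEq] at h3
      exact absurd h3.1 (hpne e)
  have h3 := Nat.card_le_card_of_injective F hF
  rw [Nat.card_prod, Nat.card_prod, ← hpairs, Nat.card_eq_fintype_card] at h3
  rw [pow_two]
  exact h3

end count

end Pool.Agent.Helper243Ev
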