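import Pool.Agent.H119R2.Kp.Base
import Pool.Agent.H119R2.Kp.D
import Pool.Agent.H119R2.Kp.NT

set_option autoImplicit false

/-!
# Properties which are invariant under the duplication of vertices
-/

namespace Pool.Agent.Helper243Ev.Twin

open Finset
open Pool.Agent.H119R2.Kp (GP Dec)
open Pool.Agent.H98R2.Ev (EV toG toG_adj)

/-- the graph obtained from `H` if every vertex is replaced by a complete graph on its preimage -/
def blow {n m : ℕ} (π : Fin n → Fin m) (H : SimpleGraph (Fin m)) : SimpleGraph (Fin n) where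
  Adj i j := i ≠ j ∧ (π i = π j ∨ H.Adj (π i) (π j))
  symm := ⟨fun _ _ h => ⟨h.1.symm, h.2.imp (fun h => h.symm) (fun h => h.symm)⟩⟩
  loopless := ⟨fun _ h => h.1 rfl⟩

/-- invariance under the duplication of vertices -/
def TwinInv (F : ∀ n : ℕ, SimpleGraph (Fin n) → Prop) : Prop :=
  ∀ (n m : ℕ) (π : Fin n → Fin m), Function.Surjective π → ∀ H : SimpleGraph (Fin m),
    F n (blow π H) ↔ F m H

theorem blow_map {n : ℕ} (σ : Fin n ≃ Fin n) (G : SimpleGraph (Fin n)) :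
    blow σ (G.map σ.toEmbedding) = G := by
  ext i j
  constructor
  · rintro ⟨h1, h2 | h2⟩
    · exact absurd (σ.injective h2) h1
    · rw [SimpleGraph.map_adj] at h2
      obtain ⟨u, v, huv, hu, hv⟩ := h2
      have h3 : u = i := σ.injective hu
      have h4 : v = j := σ.injective hv
      rwa [h3, h4] at huv
  · intro h
    refine ⟨h.ne, Or.inr ?_⟩
    rw [SimpleGraph.map_adj]
    exact ⟨i, j, h, rfl, rfl⟩

theorem TwinInv.iso {F : ∀ n : ℕ, SimpleGraph (Fin n) → Prop} (h : TwinInv F) {n : ℕ}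
    (σ : Fin n ≃ Fin n) (G : SimpleGraph (Fin n)) (hG : F n G) : F n (G.map σ.toEmbedding) := by
  rw [← h n n σ σ.surjective, blow_map]
  exact hG

open Classical in
/-- **The complexity of the property for `m` vertices is at most the one for `n ≥ m` vertices.** -/
theorem restrict {F : ∀ n : ℕ, SimpleGraph (Fin n) → Prop}
    (hmono : ∀ n (G H : SimpleGraph (Fin n)), G ≤ H → F n G → F n H) (htw : TwinInv F)
    {n m q : ℕ} (π : Fin n → Fin m) (hπ : Function.Surjective π) (h : GP n q (F n)) :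
    GP m q (F m) := by
  refine ⟨hmono m, fun σ G hG => htw.iso σ G hG, ?_⟩
  let φ : Finset (EV (Fin m)) → Finset (EV (Fin n)) := fun S =>
    univ.filter fun e : EV (Fin n) => e.1 ∈ (blow π (toG S)).edgeSet
  have hφ : ∀ S, toG (φ S) = blow π (toG S) := by
    intro S
    ext i j
    rw [toG_adj]
    constructor
    · rintro ⟨h1, h2⟩
      rw [mem_filter] at h2
      exact h2.2
    · intro hij
      refine ⟨by rw [Sym2.mk_isDiag_iff]; exact hij.ne, ?_⟩
      rw [mem_filter]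
      exact ⟨mem_univ _, hij⟩
  refine Dec.congr (h.dec.comap φ ?_) ?_
  · rintro ⟨e, he⟩
    induction e using Sym2.ind with
    | _ i j =>
      have hij : i ≠ j := by
        rwa [Sym2.mk_isDiag_iff] at he
      by_cases hp : π i = π j
      · left
        intro S
        rw [mem_filter]
        exact ⟨mem_univ _, hij, Or.inl hp⟩
      · right; right; left
        refine ⟨⟨s(π i, π j), by rwa [Sym2.mk_isDiag_iff]⟩, fun S => ?_⟩
        rw [mem_filter]
        constructor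
        · rintro ⟨_, _, h2 | h2⟩
          · exact absurd h2 hp
          · rw [toG_adj] at h2
            exact h2.2
        · intro h2
          refine ⟨mem_univ _, hij, Or.inr ?_⟩
          rw [toG_adj]
          exact ⟨_, h2⟩
  · intro S
    rw [hφ]
    exact htw n m π hπ (toG S)

/-- a surjection onto a smaller set -/
theorem exists_surj {n m : ℕ} (hm : 0 < m) (hmn : m ≤ n) :
    ∃ π : Fin n → Fin m, Function.Surjective π := by
  refine ⟨fun i => ⟨min i (m - 1), by omega⟩, fun j => ⟨⟨j, by omega⟩, ?_⟩⟩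
  apply Fin.ext
  change min (j : ℕ) (m - 1) = j
  have := j.2
  omega

/-- **The bound for a prime number of vertices.** -/
theorem prime_bound {F : ∀ n : ℕ, SimpleGraph (Fin n) → Prop}
    (hmono : ∀ n (G H : SimpleGraph (Fin n)), G ≤ H → F n G → F n H) (htw : TwinInv F)
    {n p m q : ℕ} (hp : p.Prime) (hm : 0 < m) (hmp : m ≤ p) (hpn : p ≤ n)
    (h1 : ∃ G, F m G) (h0 : ∃ G, ¬ F m G) (h : GP n q (F n)) : p.choose 2 ≤ q := by
  have : Fact p.Prime := ⟨hp⟩
  obtain ⟨π, hπ⟩ := exists_surj hp.pos hpn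
  obtain ⟨ρ, hρ⟩ := exists_surj hm hmp
  obtain ⟨G1, hG1⟩ := h1
  obtain ⟨G0, hG0⟩ := h0
  rw [Nat.choose_two_right]
  exact Pool.Agent.H119R2.Kp.prime_base (F p) (restrict hmono htw π hπ h)
    ⟨blow ρ G1, (htw p m ρ hρ G1).2 hG1⟩ ⟨blow ρ G0, fun h2 => hG0 ((htw p m ρ hρ G0).1 h2)⟩

/-- **The asymptotic form.** -/
theorem asym (ε : ℝ) (hε : 0 < ε) : ∃ n₀ : ℕ, ∀ n ≥ n₀, ∀ F : ∀ n : ℕ, SimpleGraph (Fin n) → Prop,
    (∀ n (G H : SimpleGraph (Fin n)), G ≤ H → F n G → F n H) → TwinInv F →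
    ∀ m : ℕ, 0 < m → (m : ℝ) ≤ (1 - ε) * n → (∃ G, F m G) → (∃ G, ¬ F m G) →
      ∀ q : ℕ, GP n q (F n) → (1 / 2 - ε) * n ^ 2 ≤ q := by
  set ν : ℝ := min (ε / 2) (1 / 2) with hν
  have hν0 : 0 < ν := lt_min (by linarith) (by norm_num)
  have hν1 : ν ≤ ε / 2 := min_le_left _ _
  have hν2 : ν ≤ 1 / 2 := min_le_right _ _
  obtain ⟨N, hN⟩ := Pool.Agent.H119R2.Kp.prime_between ν hν0
  refine ⟨2 * (N + 1) + ⌈2 / ε⌉₊, fun n hn F hmono htw m hm hmn h1 h0 q h => ?_⟩
  have hnN : (2 * (N + 1) : ℝ) ≤ n := by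
    have : 2 * (N + 1) ≤ n := by omega
    exact_mod_cast this
  have hnε : 2 / ε ≤ n := by
    have : ⌈2 / ε⌉₊ ≤ n := by omega
    exact Nat.ceil_le.1 this
  have hn0 : (0 : ℝ) < n := by
    have : (0 : ℝ) ≤ N := Nat.cast_nonneg N
    linarith
  have hνp : 0 < 1 + ν := by linarith
  set x : ℝ := n / (1 + ν) with hx
  have hxN : (N : ℝ) ≤ x := by
    rw [hx, le_div_iff₀ hνp]
    have : (0 : ℝ) ≤ N := Nat.cast_nonneg N
    nlinarith
  obtain ⟨p, hp, hxp, hpx⟩ := hN x hxN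
  have hnx : (n : ℝ) = (1 + ν) * x := by
    rw [hx]
    field_simp
  have hx0 : 0 < x := by
    rw [hx]
    positivity
  have hpn : p ≤ n := by
    have : (p : ℝ) < n := by rw [hnx]; exact hpx
    have h2 : p < n := by exact_mod_cast this
    exact h2.le
  have hlow : (1 - ν) * n ≤ x := by
    rw [hnx]
    have : (1 - ν) * ((1 + ν) * x) = (1 - ν ^ 2) * x := by ring
    rw [this]
    nlinarith [sq_nonneg ν]
  have hmp : m ≤ p := by
    have : (m : ℝ) < p := by
      have h2 : (1 - ε) * n ≤ (1 - ν) * n := mul_le_mul_of_nonneg_right (by linarith) hn0.le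
      linarith
    have h2 : m < p := by exact_mod_cast this
    exact h2.le
  have key := prime_bound hmono htw hp hm hmp hpn h1 h0 h
  have key2 : ((p.choose 2 : ℕ) : ℝ) ≤ q := by exact_mod_cast key
  rw [Nat.cast_choose_two] at key2
  refine le_trans ?_ key2
  have hp1 : (1 - ν) * n ≤ p := hlow.trans hxp.le
  have hp0 : (0 : ℝ) ≤ (1 - ν) * n := by
    apply mul_nonneg _ hn0.le
    linarith
  have h3 : ((1 - ν) * n) ^ 2 ≤ (p : ℝ) ^ 2 := pow_le_pow_left₀ hp0 hp1 2
  have hpn' : (p : ℝ) ≤ n := by exact_mod_cast hpn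
  have h5 : (n : ℝ) ≤ ε * n ^ 2 / 2 := by
    rw [div_le_iff₀ hε] at hnε
    nlinarith
  have h6 : (1 - 2 * ν) * (n : ℝ) ^ 2 ≤ ((1 - ν) * n) ^ 2 := by
    have : ((1 - ν) * (n : ℝ)) ^ 2 = (1 - 2 * ν) * n ^ 2 + ν ^ 2 * n ^ 2 := by ring
    rw [this]
    have : 0 ≤ ν ^ 2 * (n : ℝ) ^ 2 := by positivity
    linarith
  have h7 : (1 - ε) * (n : ℝ) ^ 2 ≤ (1 - 2 * ν) * (n : ℝ) ^ 2 :=
    mul_le_mul_of_nonneg_right (by linarith) (by positivity)
  have h8 : (p : ℝ) * (p - 1) = p ^ 2 - p := by ring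
  rw [h8]
  nlinarith

end Pool.Agent.Helper243Ev.Twin
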