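import Pool.Agent.Helper243_Ev.Twin

set_option autoImplicit false

/-!
# Domination and diameter
-/

namespace Pool.Agent.Helper243Ev.Twin

open Finset

/-- some `s` vertices are such that all vertices have distance at most `d` from one of them -/
def Cen (s d n : ℕ) (G : SimpleGraph (Fin n)) : Prop :=
  ∃ S : Finset (Fin n), S.card ≤ s ∧ ∀ v, ∃ u ∈ S, ∃ w : G.Walk u v, w.length ≤ d

/-- all distances are at most `d` -/
def Dia (d n : ℕ) (G : SimpleGraph (Fin n)) : Prop :=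
  ∀ u v, ∃ w : G.Walk u v, w.length ≤ d

theorem proj_walk {n m : ℕ} (π : Fin n → Fin m) (H : SimpleGraph (Fin m)) {i j : Fin n}
    (w : (blow π H).Walk i j) : ∃ w' : H.Walk (π i) (π j), w'.length ≤ w.length := by
  induction w with
  | nil => exact ⟨SimpleGraph.Walk.nil, le_rfl⟩
  | @cons a b c h w ih =>
    obtain ⟨w', hw'⟩ := ih
    rcases h.2 with h2 | h2
    · refine ⟨w'.copy h2.symm rfl, ?_⟩
      rw [SimpleGraph.Walk.length_copy, SimpleGraph.Walk.length_cons]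
      omega
    · refine ⟨SimpleGraph.Walk.cons h2 w', ?_⟩
      rw [SimpleGraph.Walk.length_cons, SimpleGraph.Walk.length_cons]
      omega

theorem lift_walk {n m : ℕ} (π : Fin n → Fin m) (hπ : Function.Surjective π)
    (H : SimpleGraph (Fin m)) {a b : Fin m} (w : H.Walk a b) :
    ∀ i j : Fin n, π i = a → π j = b →
      ∃ w' : (blow π H).Walk i j, w'.length ≤ max w.length 1 := by
  induction w with
  | nil =>
    intro i j hi hj
    by_cases hij : i = j
    · subst hij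
      exact ⟨SimpleGraph.Walk.nil, by simp⟩
    · have hadj : (blow π H).Adj i j := ⟨hij, Or.inl (hi.trans hj.symm)⟩
      exact ⟨hadj.toWalk, by simp⟩
  | @cons a c b h w ih =>
    intro i j hi hj
    by_cases hw : w.length = 0
    · have hcb : c = b := SimpleGraph.Walk.eq_of_length_eq_zero hw
      subst hcb
      have hij : i ≠ j := by
        rintro rfl
        exact h.ne (hi.symm.trans hj)
      have hadj : (blow π H).Adj i j := ⟨hij, Or.inr (by rw [hi, hj]; exact h)⟩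
      exact ⟨hadj.toWalk, by simp⟩
    · obtain ⟨k, hk⟩ := hπ c
      obtain ⟨w', hw'⟩ := ih k j hk hj
      have hik : i ≠ k := by
        rintro rfl
        exact h.ne (hi.symm.trans hk)
      have hadj : (blow π H).Adj i k := ⟨hik, Or.inr (by rw [hi, hk]; exact h)⟩
      refine ⟨SimpleGraph.Walk.cons hadj w', ?_⟩
      rw [SimpleGraph.Walk.length_cons, SimpleGraph.Walk.length_cons]
      omega

theorem mono_walk {n : ℕ} {G H : SimpleGraph (Fin n)} (h : G ≤ H) {u v : Fin n} {d : ℕ}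
    (hG : ∃ w : G.Walk u v, w.length ≤ d) : ∃ w : H.Walk u v, w.length ≤ d := by
  obtain ⟨w, hw⟩ := hG
  exact ⟨w.map (SimpleGraph.Hom.ofLE h), by rwa [SimpleGraph.Walk.length_map]⟩

theorem cen_mono (s d n : ℕ) (G H : SimpleGraph (Fin n)) (h : G ≤ H) (hG : Cen s d n G) :
    Cen s d n H := by
  obtain ⟨S, hS, h2⟩ := hG
  refine ⟨S, hS, fun v => ?_⟩
  obtain ⟨u, hu, hw⟩ := h2 v
  exact ⟨u, hu, mono_walk h hw⟩

theorem dia_mono (d n : ℕ) (G H : SimpleGraph (Fin n)) (h : G ≤ H) (hG : Dia d n G) :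
    Dia d n H := fun u v => mono_walk h (hG u v)

theorem cen_twin (s d : ℕ) (hd : 1 ≤ d) : TwinInv (Cen s d) := by
  classical
  intro n m π hπ H
  constructor
  · rintro ⟨S, hS, h⟩
    refine ⟨S.image π, Finset.card_image_le.trans hS, fun v => ?_⟩
    obtain ⟨i, rfl⟩ := hπ v
    obtain ⟨u, hu, w, hw⟩ := h i
    obtain ⟨w', hw'⟩ := proj_walk π H w
    exact ⟨π u, Finset.mem_image_of_mem _ hu, w', hw'.trans hw⟩
  · rintro ⟨S, hS, h⟩
    choose σ hσ using hπ
    refine ⟨S.image σ, Finset.card_image_le.trans hS, fun i => ?_⟩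
    obtain ⟨u, hu, w, hw⟩ := h (π i)
    obtain ⟨w', hw'⟩ := lift_walk π (fun b => ⟨σ b, hσ b⟩) H w (σ u) i (hσ u) rfl
    exact ⟨σ u, Finset.mem_image_of_mem _ hu, w', hw'.trans (max_le hw hd)⟩

theorem dia_twin (d : ℕ) (hd : 1 ≤ d) : TwinInv (Dia d) := by
  intro n m π hπ H
  constructor
  · intro h u v
    obtain ⟨i, rfl⟩ := hπ u
    obtain ⟨j, rfl⟩ := hπ v
    obtain ⟨w, hw⟩ := h i j
    obtain ⟨w', hw'⟩ := proj_walk π H w
    exact ⟨w', hw'.trans hw⟩
  · intro h i j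
    obtain ⟨w, hw⟩ := h (π i) (π j)
    obtain ⟨w', hw'⟩ := lift_walk π hπ H w i j rfl rfl
    exact ⟨w', hw'.trans (max_le hw hd)⟩

theorem cen_top (s d : ℕ) (hs : 1 ≤ s) (hd : 1 ≤ d) (m : ℕ) (hm : 0 < m) :
    Cen s d m (⊤ : SimpleGraph (Fin m)) := by
  refine ⟨{⟨0, hm⟩}, by simpa using hs, fun v => ⟨⟨0, hm⟩, by simp, ?_⟩⟩
  by_cases h : (⟨0, hm⟩ : Fin m) = v
  · subst h
    exact ⟨SimpleGraph.Walk.nil, by simp⟩
  · have hadj : (⊤ : SimpleGraph (Fin m)).Adj ⟨0, hm⟩ v := h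
    exact ⟨hadj.toWalk, by simpa using hd⟩

theorem cen_bot (s d : ℕ) : ¬ Cen s d (s + 1) (⊥ : SimpleGraph (Fin (s + 1))) := by
  rintro ⟨S, hS, h⟩
  have h1 : S = univ := by
    ext v
    simp only [mem_univ, iff_true]
    obtain ⟨u, hu, w, _⟩ := h v
    have h2 : u = v := by
      have h3 : (⊥ : SimpleGraph (Fin (s + 1))).Reachable u v := ⟨w⟩
      rwa [SimpleGraph.reachable_bot] at h3
    rwa [← h2]
  rw [h1, Finset.card_univ, Fintype.card_fin] at hS
  omega

theorem dia_top (d : ℕ) (hd : 1 ≤ d) (m : ℕ) : Dia d m (⊤ : SimpleGraph (Fin m)) := by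
  intro u v
  by_cases h : u = v
  · subst h
    exact ⟨SimpleGraph.Walk.nil, by simp⟩
  · have hadj : (⊤ : SimpleGraph (Fin m)).Adj u v := h
    exact ⟨hadj.toWalk, by simpa using hd⟩

theorem dia_bot (d : ℕ) : ¬ Dia d 2 (⊥ : SimpleGraph (Fin 2)) := by
  intro h
  obtain ⟨w, _⟩ := h 0 1
  have h3 : (⊥ : SimpleGraph (Fin 2)).Reachable 0 1 := ⟨w⟩
  rw [SimpleGraph.reachable_bot] at h3
  exact absurd h3 (by decide)

end Pool.Agent.Helper243Ev.Twin
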